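import Pool.Agent.N101.ZP.Desc

/-!
# Optimal points of slices

Let `T` be a rank theory over `F` and `k` an algebraically closed field which contains elements
algebraically independent over `F`. A point of transcendence degree `d` over `F` which is optimal for a
closed condition gives an optimal point over `k` of the condition together with the equations
`x_j = c_j`, `j ∈ J`, for a set `J` of `d` coordinates and algebraically independent elements `c_j`.
-/

set_option autoImplicit false
set_option linter.unusedSectionVars false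
set_option linter.style.haveILetI false

namespace Pool.Agent.N902.OP

open MvPolynomial Pool.Agent.R948 Pool.Agent.N101.ZP

section

variable {F : Type} [Field F] {ι : Type} [Fintype ι] {k : Type} [Field k] [Algebra F k]

theorem hom_aeval {F : Type} [Field F] {ι A B : Type} [CommRing A] [Algebra F A] [CommRing B] [Algebra F B]
    (φ : A →ₐ[F] B) (x : ι → A) (f : MvPolynomial ι F) :
    aeval (fun i => φ (x i)) f = φ (aeval x f) := by
  have h : aeval (fun i => φ (x i)) = φ.comp (aeval x) := by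
    ext i
    simp
  rw [h]
  rfl

/-- a point with prescribed independent coordinates -/
theorem exists_slice [IsAlgClosed k] (P : PP F ι) (J : Finset ι)
    (hind : AlgebraicIndependent F (fun j : J => P.pt j))
    (halg : ∀ i, IsAlgebraic (Algebra.adjoin F (P.pt '' J)) (P.pt i)) (c : J → k)
    (hc : AlgebraicIndependent F c) :
    ∃ y : ι → k, Sp F P.pt y ∧ Sp F y P.pt ∧ ∀ j : J, y j = c j := by
  classical
  have hrange : Set.range (fun j : J => P.pt j) = P.pt '' J := by
    ext b
    simp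
  obtain ⟨A, hA⟩ : ∃ A, A = Algebra.adjoin F (Set.range (fun j : J => P.pt j)) := ⟨_, rfl⟩
  let e : MvPolynomial J F ≃ₐ[F] Algebra.adjoin F (Set.range (fun j : J => P.pt j)) := hind.aevalEquiv
  let ψ : Algebra.adjoin F (Set.range (fun j : J => P.pt j)) →ₐ[F] k := (aeval c).comp e.symm.toAlgHom
  have hψ : Function.Injective ψ := by
    intro a b hab
    have h1 : aeval c (e.symm a) = aeval c (e.symm b) := hab
    exact e.symm.injective (hc h1)
  letI : Algebra (Algebra.adjoin F (Set.range (fun j : J => P.pt j))) k := ψ.toRingHom.toAlgebra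
  haveI : IsScalarTower F (Algebra.adjoin F (Set.range (fun j : J => P.pt j))) k :=
    IsScalarTower.of_algebraMap_eq fun x => (ψ.commutes x).symm
  haveI : Module.IsTorsionFree (Algebra.adjoin F (Set.range (fun j : J => P.pt j))) k :=
    Module.isTorsionFree_iff_algebraMap_injective.2 hψ
  haveI : Algebra.IsAlgebraic (Algebra.adjoin F (Set.range (fun j : J => P.pt j))) P.fld := by
    refine ⟨fun a => ?_⟩
    obtain ⟨x, y, hy, rfl⟩ := IsFractionRing.div_surjective (A := MvPolynomial ι F ⧸ P.I) a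
    obtain ⟨f, rfl⟩ := Ideal.Quotient.mk_surjective x
    obtain ⟨g, rfl⟩ := Ideal.Quotient.mk_surjective y
    rw [← PP.aeval_pt, ← PP.aeval_pt]
    have h1 : ∀ f : MvPolynomial ι F,
        IsAlgebraic (Algebra.adjoin F (Set.range (fun j : J => P.pt j))) (aeval P.pt f) := by
      intro f
      induction f using MvPolynomial.induction_on with
      | C r =>
        rw [aeval_C, IsScalarTower.algebraMap_apply F
          (Algebra.adjoin F (Set.range (fun j : J => P.pt j))) P.fld]
        exact isAlgebraic_algebraMap _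
      | add p q hp hq =>
        rw [map_add]
        exact hp.add hq
      | mul_X p i hp =>
        rw [map_mul, aeval_X]
        refine hp.mul ?_
        rw [hrange]
        exact halg i
    rw [div_eq_mul_inv]
    exact (h1 f).mul (IsAlgebraic.inv_iff.2 (h1 g))
  let φ : P.fld →ₐ[Algebra.adjoin F (Set.range (fun j : J => P.pt j))] k := IsAlgClosed.lift
  let φ' : P.fld →ₐ[F] k := φ.restrictScalars F
  refine ⟨fun i => φ' (P.pt i), ?_, ?_, ?_⟩
  · intro f hf
    have h1 : aeval (fun i => φ' (P.pt i)) f = φ' (aeval P.pt f) := hom_aeval φ' P.pt f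
    rw [h1, hf, map_zero]
  · intro f hf
    have h1 : aeval (fun i => φ' (P.pt i)) f = φ' (aeval P.pt f) := hom_aeval φ' P.pt f
    rw [h1] at hf
    exact (map_eq_zero_iff φ' φ'.toRingHom.injective).1 hf
  · intro j
    have hmem : P.pt j ∈ Algebra.adjoin F (Set.range (fun j : J => P.pt j)) :=
      Algebra.subset_adjoin ⟨j, rfl⟩
    have h1 : φ' (P.pt j) = φ (algebraMap (Algebra.adjoin F (Set.range (fun j : J => P.pt j))) P.fld
      ⟨P.pt j, hmem⟩) := rfl
    change φ' (P.pt j) = c j
    rw [h1, φ.commutes]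
    change aeval c (e.symm ⟨P.pt j, hmem⟩) = c j
    have h2 : e.symm ⟨P.pt j, hmem⟩ = X j := by
      rw [AlgEquiv.symm_apply_eq]
      apply Subtype.ext
      have h3 := hind.algebraMap_aevalEquiv (X j)
      rw [aeval_X] at h3
      exact h3.symm
    rw [h2, aeval_X]

/-- a transcendence basis in a given set of coordinates -/
theorem exists_basis (F : Type) [Field F] {A : Type} [CommRing A] [IsDomain A] [Algebra F A] (z : ι → A)
    (S₀ : Finset ι) (h : ∀ i, IsAlgebraic (Algebra.adjoin F (z '' S₀)) (z i)) :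
    ∃ J : Finset ι, J ⊆ S₀ ∧ J.card = td F z ∧ AlgebraicIndependent F (fun j : J => z j) ∧
      ∀ i, IsAlgebraic (Algebra.adjoin F (z '' J)) (z i) := by
  classical
  obtain ⟨S, hS1, hS2, hS3⟩ := exists_td F (fun i : S₀ => z i)
  obtain ⟨J, hJ⟩ : ∃ J, J = S.map (Function.Embedding.subtype _) := ⟨_, rfl⟩
  have hJim : (fun i : S₀ => z i) '' S = z '' J := by
    rw [hJ]
    ext b
    simp
  have hJS : J ⊆ S₀ := by
    intro j hj
    rw [hJ, Finset.mem_map] at hj
    obtain ⟨a, -, rfl⟩ := hj
    exact a.2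
  rw [hJim] at hS3
  have h3 : ∀ i, IsAlgebraic (Algebra.adjoin F (z '' J)) (z i) := by
    intro i
    refine (h i).adjoin_of_forall_isAlgebraic ?_
    rintro x ⟨⟨j, hj, rfl⟩, -⟩
    exact hS3 ⟨j, hj⟩
  refine ⟨J, hJS, ?_, ?_, h3⟩
  · rw [hJ, Finset.card_map, hS1]
    refine le_antisymm (td_le_of_alg F fun i => alg_range (F := F) z i.1) (td_le_of_alg F fun i => ?_)
    have h4 : Set.range (fun i : S₀ => z i) = z '' S₀ := by
      ext b
      simp
    rw [h4]
    exact h i
  · have h5 : ∀ j : J, ∃ a : S, ((a : S₀) : ι) = j := by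
      rintro ⟨j, hj⟩
      rw [hJ, Finset.mem_map] at hj
      obtain ⟨a, ha, rfl⟩ := hj
      exact ⟨⟨a, ha⟩, rfl⟩
    choose e he using h5
    have hinj : Function.Injective e := by
      intro a b hab
      apply Subtype.ext
      rw [← he a, ← he b, hab]
    have h6 := hS2.comp e hinj
    have h7 : (fun j : J => z j) = (fun i : S => z (i : S₀)) ∘ e := by
      funext j
      rw [Function.comp_apply, he j]
    rw [h7]
    exact h6

theorem td_self (z : ι → k) : td k z = 0 := by
  obtain ⟨S, hS, hS2, -⟩ := exists_td k z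
  rw [← hS, Finset.card_eq_zero]
  by_contra hne
  obtain ⟨i, hi⟩ := Finset.nonempty_iff_ne_empty.2 hne
  have h1 := hS2.transcendental ⟨i, hi⟩
  exact h1 (isAlgebraic_algebraMap (A := k) (z i))

/-- a slice drops the dimension by the number of the fixed coordinates -/
theorem td_slice (P : PP k ι) (J : Finset ι) (c : J → k) (hc : AlgebraicIndependent F c)
    (h : ∀ j : J, P.pt j = algebraMap k P.fld (c j)) : td k P.pt + J.card ≤ td F P.pt := by
  have h1 := td_add_le (F := F) P.pt c
  have h2 := N101.ZP.card_le_td hc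
  rw [Fintype.card_coe] at h2
  have h3 : td F (Sum.elim P.pt (fun j => algebraMap k P.fld (c j))) ≤ td F P.pt := by
    refine td_le_of_alg F fun a => ?_
    rcases a with i | j
    · exact alg_range (F := F) P.pt i
    · have h4 : (Sum.elim P.pt (fun j => algebraMap k P.fld (c j)) : ι ⊕ J → P.fld) (Sum.inr j) =
          P.pt j := (h j).symm
      rw [h4]
      exact alg_range (F := F) P.pt j
  omega

/-- Optimal points, with coordinates in `k`, of the slice `x_j = c_j`, `j ∈ J`, of a condition. -/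
def OptPt (T : RT F) (s : ι → T.S) (C : Cond F ι) (J : Finset ι) (c : J → k) (y : ι → k) : Prop :=
  T.Ok s y ∧ C.sat y ∧ (∀ j : J, y j = c j) ∧
    ∀ P : PP k ι, C.sat P.pt → (∀ j : J, P.pt j = algebraMap k P.fld (c j)) → Sp k P.pt y →
      PP.ofPt k y ≠ P → ¬ T.df k s P.pt ≤ T.df k s y

/-- **Optimal points of the slices suffice.** -/
theorem fin_of_slices [IsAlgClosed k] (T : RT F) (s : ι → T.S) (C : Cond F ι) (S₀ : Finset ι)
    (hS₀ : ∀ P : PP F ι, C.sat P.pt → ∀ i, IsAlgebraic (Algebra.adjoin F (P.pt '' S₀)) (P.pt i))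
    (c : ∀ J : Finset ι, J → k) (hc : ∀ J ⊆ S₀, AlgebraicIndependent F (c J))
    (H : ∀ J ⊆ S₀, {y | OptPt T s C J (c J) y}.Finite) : FinC T s C := by
  classical
  refine ⟨⋃ J ∈ S₀.powerset, (fun y => PP.ofPt F y) ''
    {y | OptPt T s C J (c J) y}, ?_, ?_⟩
  · exact Set.Finite.biUnion (Finset.finite_toSet _) fun J hJ =>
      (H J (Finset.mem_powerset.1 (Finset.mem_coe.1 hJ))).image _
  intro K _ _ y hy hC _
  let S : Set ℕ := {n | ∃ P : PP F ι, Sp F P.pt y ∧ C.sat P.pt ∧ T.df F s P.pt ≤ T.df F s y ∧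
    td F P.pt = n}
  have hS1 : S.Nonempty := ⟨_, PP.ofPt F y, PP.sp_ofPt y, C.closed _ _ (PP.sp_ofPt' y) hC,
    (T.df_eq s _ _ (PP.sp_ofPt y) (PP.sp_ofPt' y) hy).le, rfl⟩
  have hS2 : BddAbove S := ⟨Fintype.card ι, by
    rintro _ ⟨P, -, -, -, rfl⟩
    exact td_le_card F _⟩
  obtain ⟨P₀, h1, h2, h3, h4⟩ := Nat.sSup_mem hS1 hS2
  obtain ⟨J, hJ0, hJ1, hJ2, hJ3⟩ := exists_basis F P₀.pt S₀ (hS₀ P₀ h2)
  obtain ⟨z, hz1, hz2, hz3⟩ := exists_slice P₀ J hJ2 hJ3 (c J) (hc J hJ0)
  have hP₀ok : T.Ok s P₀.pt := RT.Ok.of_sp h1 hy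
  have hzok : T.Ok s z := RT.Ok.of_sp hz2 hP₀ok
  have key : OptPt T s C J (c J) z := by
    refine ⟨hzok, C.closed _ _ hz1 h2, hz3, ?_⟩
    intro P hP1 hP2 hP3 hP4 hP5
    have e1 := PP.sp_ofPt (F := F) P.pt
    have e2 := PP.sp_ofPt' (F := F) P.pt
    have hPz : Sp F P.pt z := sp_restrict (F := F) hP3
    have hPok : T.Ok s P.pt := RT.Ok.of_sp hPz hzok
    have d1 := td_slice (F := F) P J (c J) (hc J hJ0) hP2
    have d2 : td k z = 0 := td_self z
    have d3 : 0 < td k P.pt := by
      have a1 : P.I < (PP.ofPt k z).I := by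
        refine lt_of_le_of_ne ((PP.sp_iff P z).1 hP3) fun h => hP4 (PP.ext' h.symm)
      have a2 := tdP_strict a1
      rw [td_ofPt, ← PP.td_pt] at a2
      omega
    have d4 : td F (PP.ofPt F P.pt).pt = td F P.pt := le_antisymm e2.td_le e1.td_le
    have r1 : T.rk s z = T.rk s P₀.pt := T.rk_eq s z P₀.pt hz2 hz1 hP₀ok
    have r2 : T.df F s (PP.ofPt F P.pt).pt = T.df F s P.pt := T.df_eq s _ _ e1 e2 hPok
    have h5 : td F (PP.ofPt F P.pt).pt ∈ S := by
      refine ⟨PP.ofPt F P.pt, (e1.trans hPz).trans (hz2.trans h1), C.closed _ _ e2 hP1, ?_, rfl⟩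
      rw [r2]
      refine le_trans ?_ h3
      rw [RT.df, RT.df] at hP5 ⊢
      rw [d2, r1] at hP5
      push_cast at hP5
      omega
    have h6 := le_csSup hS2 h5
    have h7 : sSup S = td F P₀.pt := h4.symm
    rw [h7, d4] at h6
    omega
  refine ⟨PP.ofPt F z, Set.mem_biUnion (Finset.mem_coe.2 (Finset.mem_powerset.2 hJ0)) ⟨z, key, rfl⟩, ?_, ?_, ?_⟩
  · exact ((PP.sp_ofPt (F := F) z).trans hz2).trans h1
  · exact C.closed _ _ (PP.sp_ofPt' (F := F) z) (C.closed _ _ hz1 h2)
  · rw [T.df_eq s _ _ (PP.sp_ofPt (F := F) z) (PP.sp_ofPt' (F := F) z) hzok,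
      T.df_eq s _ _ hz2 hz1 hP₀ok]
    exact h3

end

end Pool.Agent.N902.OP
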