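import Pool.Agent.N902.OP.Abs
import Pool.Agent.R948.Opt

/-!
# Optimal points of slices: tori
-/

set_option autoImplicit false
set_option linter.unusedSectionVars false
set_option linter.style.haveILetI false

namespace Pool.Agent.N902.OP

open MvPolynomial Pool.Agent.R948

section

variable {F : Type} [Field F] {ι : Type} [Fintype ι] {k : Type} [Field k] [Algebra F k]

/-- the prime of a torus point, as a prime -/
def pp (P : TP F ι) : N101.ZP.PP F ι := ⟨P.I, P.prime⟩

theorem pp_pt (P : TP F ι) : (pp P).pt = un P.pt := rfl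

/-- a torus point with prescribed independent coordinates -/
theorem exists_slice_tor [IsAlgClosed k] (P : TP F ι) (J : Finset ι)
    (hind : AlgebraicIndependent F (fun j : J => un P.pt j))
    (halg : ∀ i, IsAlgebraic (Algebra.adjoin F (un P.pt '' J)) (un P.pt i)) (c : J → k)
    (hc : AlgebraicIndependent F c) :
    ∃ y : ι → kˣ, Spec F P.pt y ∧ Spec F y P.pt ∧ ∀ j : J, (y j : k) = c j := by
  obtain ⟨y, h1, h2, h3⟩ := exists_slice (pp P) J hind halg c hc
  have hy : ∀ i, y i ≠ 0 := by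
    intro i hi
    have h4 := h2 (X i) (by rw [aeval_X, hi])
    rw [aeval_X] at h4
    exact (P.pt i).ne_zero h4
  exact ⟨fun i => Units.mk0 (y i) (hy i), h1, h2, h3⟩

/-- a slice drops the dimension by the number of the fixed coordinates -/
theorem td_slice_tor (P : TP k ι) (J : Finset ι) (c : J → k) (hc : AlgebraicIndependent F c)
    (h : ∀ j : J, un P.pt j = algebraMap k P.fld (c j)) :
    td k (un P.pt) + J.card ≤ td F (un P.pt) :=
  td_slice (F := F) (pp P) J c hc h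

/-- Optimal points, with coordinates in `k`, of the slice `x_j = c_j`, `j ∈ J`. -/
def OptPtT (I : Ideal (MvPolynomial ι F)) (J : Finset ι) (c : J → k) (y : ι → kˣ) : Prop :=
  (∀ f ∈ I, aeval (un y) f = 0) ∧ (∀ j : J, (y j : k) = c j) ∧
    ∀ P : TP k ι, (∀ f ∈ I, aeval (un P.pt) f = 0) →
      (∀ j : J, un P.pt j = algebraMap k P.fld (c j)) → Spec k P.pt y →
      TP.ofPt y ≠ P → ¬ P.df ≤ df k y

theorem spec_restrict {K L : Type} [Field K] [Field L] [Algebra k K] [Algebra k L] [Algebra F K]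
    [Algebra F L] [IsScalarTower F k K] [IsScalarTower F k L] {p : ι → Kˣ} {p' : ι → Lˣ}
    (h : Spec k p p') : Spec F p p' := fun f hf =>
  N101.ZP.sp_restrict (F := F) (p := un p) (p' := un p') h f hf

/-- **Optimal points of the slices suffice.** -/
theorem fin_of_slices_tor [IsAlgClosed k] (I : Ideal (MvPolynomial ι F)) (S₀ : Finset ι)
    (hS₀ : ∀ P : TP F ι, I ≤ P.I →
      ∀ i, IsAlgebraic (Algebra.adjoin F (un P.pt '' S₀)) (un P.pt i))
    (c : ∀ J : Finset ι, J → k) (hc : ∀ J ⊆ S₀, AlgebraicIndependent F (c J))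
    (H : ∀ J ⊆ S₀, {y : ι → kˣ | OptPtT I J (c J) y}.Finite) : Fin' I := by
  classical
  refine ⟨⋃ J ∈ S₀.powerset, (fun y => (TP.ofPt y : TP F ι).I) ''
    {y : ι → kˣ | OptPtT I J (c J) y}, ?_, ?_⟩
  · exact Set.Finite.biUnion (Finset.finite_toSet _) fun J hJ =>
      (H J (Finset.mem_powerset.1 (Finset.mem_coe.1 hJ))).image _
  intro Q₀ hQ₀
  let S : Set ℕ := {n | ∃ P : TP F ι, I ≤ P.I ∧ P.I ≤ Q₀.I ∧ P.df ≤ Q₀.df ∧
    td F (un P.pt) = n}
  have hS1 : S.Nonempty := ⟨_, Q₀, hQ₀, le_rfl, le_rfl, rfl⟩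
  have hS2 : BddAbove S := ⟨Fintype.card ι, by
    rintro _ ⟨P, -, -, -, rfl⟩
    exact td_le_card F _⟩
  obtain ⟨P₀, h1, h2, h3, h4⟩ := Nat.sSup_mem hS1 hS2
  obtain ⟨J, hJ0, hJ1, hJ2, hJ3⟩ := exists_basis F (un P₀.pt) S₀ (hS₀ P₀ h1)
  obtain ⟨z, hz1, hz2, hz3⟩ := exists_slice_tor P₀ J hJ2 hJ3 (c J) (hc J hJ0)
  have hzI : (TP.ofPt z : TP F ι).I = P₀.I := by
    ext f
    rw [TP.mem_ofPt, ← TP.aeval_pt_eq_zero]
    exact ⟨fun h => hz2 f h, fun h => hz1 f h⟩
  have key : OptPtT I J (c J) z := by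
    refine ⟨fun f hf => ?_, hz3, ?_⟩
    · have h5 := h1 hf
      rw [← hzI] at h5
      exact h5
    intro P hP1 hP2 hP3 hP4 hP5
    obtain ⟨Q, hQ⟩ : ∃ Q : TP F ι, Q = TP.ofPt P.pt := ⟨_, rfl⟩
    have hPz : Spec F P.pt z := spec_restrict hP3
    have e1 : Spec F Q.pt P.pt := fun f hf => by
      rw [TP.aeval_pt_eq_zero, hQ, TP.mem_ofPt] at hf
      exact hf
    have e2 : Spec F P.pt Q.pt := fun f hf => by
      rw [TP.aeval_pt_eq_zero, hQ, TP.mem_ofPt]
      exact hf
    have d1 := td_slice_tor (F := F) P J (c J) (hc J hJ0) hP2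
    have d2 : td k (un z) = 0 := td_self (un z)
    have d3 : 0 < td k (un P.pt) := by
      have a1 : P.I < (TP.ofPt z : TP k ι).I := by
        refine lt_of_le_of_ne (fun f hf => ?_) fun h => hP4 (TP.ext' h.symm)
        rw [TP.mem_ofPt]
        exact hP3 f ((P.aeval_pt_eq_zero f).2 hf)
      have a2 := tdP_strict a1
      rw [← TP.td_pt, ← TP.td_pt] at a2
      omega
    have d4 : td F (un Q.pt) = td F (un P.pt) := le_antisymm e2.td_le e1.td_le
    have r0 : dr z = dr P₀.pt := le_antisymm hz2.dr_le hz1.dr_le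
    have r1 : dr Q.pt = dr P.pt := le_antisymm e1.dr_le e2.dr_le
    have h5 : td F (un Q.pt) ∈ S := by
      refine ⟨Q, fun f hf => ?_, fun f hf => ?_, ?_, rfl⟩
      · rw [hQ, TP.mem_ofPt]
        exact hP1 f hf
      · rw [hQ, TP.mem_ofPt] at hf
        have h6 := hz2 f (hPz f hf)
        rw [TP.aeval_pt_eq_zero] at h6
        exact h2 h6
      · refine le_trans ?_ h3
        rw [TP.df, df] at hP5 ⊢
        rw [df] at hP5
        rw [TP.df, df]
        rw [d2, r0] at hP5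
        rw [r1, d4]
        push_cast at hP5
        omega
    have h6 := le_csSup hS2 h5
    have h7 : sSup S = td F (un P₀.pt) := h4.symm
    rw [h7, d4] at h6
    omega
  refine ⟨P₀, Set.mem_biUnion (Finset.mem_coe.2 (Finset.mem_powerset.2 hJ0)) ⟨z, key, hzI⟩,
    h1, h2, h3⟩

end

end Pool.Agent.N902.OP
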