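import Pool.Agent.N902.OP.AbsT
import Pool.Agent.BezHen.Alg

/-!
# Optimal points of subvarieties of tori
-/

set_option autoImplicit false
set_option linter.unusedSectionVars false
set_option linter.style.haveILetI false

namespace Pool.Agent.N902.OP

open MvPolynomial Pool.Agent.R948

section

variable {k : Type} [Field k] {ι : Type} [Fintype ι]

theorem zclosed_one (y : ι → kˣ) : ZClosed ({y} : Set (ι → kˣ)) := by
  refine ⟨Set.range fun i => X i - C (y i : k), ?_⟩
  ext x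
  constructor
  · rintro h _ ⟨i, rfl⟩
    rw [Set.mem_singleton_iff.1 h]
    simp
  · intro h
    refine Set.mem_singleton_iff.2 (funext fun i => Units.ext ?_)
    have h1 := h _ ⟨i, rfl⟩
    rw [map_sub, eval_X, eval_C, sub_eq_zero] at h1
    exact h1

theorem sub_one' (y : ι → kˣ) : Subvariety ({y} : Set (ι → kˣ)) where
  closed := zclosed_one y
  nonempty := ⟨y, rfl⟩
  irreducible := fun B C _ _ h => by
    rcases h (Set.mem_singleton y) with h1 | h1
    · exact Or.inl (Set.singleton_subset_iff.2 h1)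
    · exact Or.inr (Set.singleton_subset_iff.2 h1)

theorem toTP_one (y : ι → kˣ) : toTP (sub_one' y) = TP.ofPt y := by
  apply TP.ext'
  ext f
  constructor
  · intro h
    exact h y rfl
  · intro h x hx
    rw [Set.mem_singleton_iff.1 hx]
    exact h

theorem defect_one [IsAlgClosed k] (y : ι → kˣ) : defect ({y} : Set (ι → kˣ)) = df k y := by
  rw [defect_eq (sub_one' y), toTP_one, TP.df_ofPt]

theorem df_self (y : ι → kˣ) : df k y = Fintype.card ι - dr y := by
  rw [df, td_self]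
  simp

/-- the closure -/
def tcl (A : Set (ι → kˣ)) : Set (ι → kˣ) := zeros (van A : Set (MvPolynomial ι k))

theorem subset_tcl (A : Set (ι → kˣ)) : A ⊆ tcl A := subset_zeros_van A

theorem zclosed_tcl (A : Set (ι → kˣ)) : ZClosed (tcl A) := ⟨_, rfl⟩

theorem tcl_subset {A B : Set (ι → kˣ)} (hB : ZClosed B) (h : A ⊆ B) : tcl A ⊆ B := by
  rw [← hB.eq]
  exact zeros_anti (van_anti h)

theorem van_tcl (A : Set (ι → kˣ)) : van (tcl A) = van A :=
  le_antisymm (van_anti (subset_tcl A)) (fun f hf _ hx => hx f hf)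

theorem t_inter {A B : Set (ι → kˣ)} (hA : ZClosed A) (hB : ZClosed B) : ZClosed (A ∩ B) := by
  obtain ⟨S, rfl⟩ := hA
  obtain ⟨T, rfl⟩ := hB
  refine ⟨S ∪ T, ?_⟩
  ext x
  constructor
  · rintro ⟨h1, h2⟩ f (hf | hf)
    · exact h1 f hf
    · exact h2 f hf
  · intro h
    exact ⟨fun f hf => h f (Or.inl hf), fun f hf => h f (Or.inr hf)⟩

theorem t_finite_union {A : Set (ι → kˣ)} (h : Subvariety A) {α : Type} (s : Finset α)
    (B : α → Set (ι → kˣ)) (hB : ∀ a, ZClosed (B a)) (hA : A ⊆ ⋃ a ∈ s, B a) :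
    ∃ a ∈ s, A ⊆ B a := by
  classical
  have hp := h.prime
  by_contra hcon
  push Not at hcon
  have h1 : ∀ a ∈ s, ∃ f ∈ van (B a), f ∉ van A := by
    intro a ha
    by_contra h2
    push Not at h2
    apply hcon a ha
    rw [← h.closed.eq, ← (hB a).eq]
    exact zeros_anti h2
  choose! f hf hf2 using h1
  have h2 : ∏ a ∈ s, f a ∈ van A := by
    intro x hx
    obtain ⟨a, ha, hxa⟩ := Set.mem_iUnion₂.1 (hA hx)
    rw [map_prod]
    exact Finset.prod_eq_zero ha (hf a ha x hxa)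
  obtain ⟨a, ha, h3⟩ := (hp.prod_mem_iff).1 h2
  exact hf2 a ha h3

theorem t_closed_union {α : Type} [DecidableEq α] (s : Finset α) (A : α → Set (ι → kˣ)) :
    ZClosed (⋃ a ∈ s, tcl (A a)) := by
  induction s using Finset.induction_on with
  | empty =>
    refine ⟨{1}, ?_⟩
    ext x
    simp [R948.zeros]
  | insert a s _ ih =>
    rw [Finset.set_biUnion_insert]
    obtain ⟨S, hS⟩ := zclosed_tcl (A a)
    obtain ⟨S', hS'⟩ := ih
    rw [hS, hS']
    refine ⟨{h | ∃ f ∈ S, ∃ g ∈ S', h = f * g}, ?_⟩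
    ext x
    constructor
    · rintro (h | h) _ ⟨f, hf, g, hg, rfl⟩
      · rw [map_mul, h f hf, zero_mul]
      · rw [map_mul, h g hg, mul_zero]
    · intro h
      by_contra hcon
      rw [Set.mem_union, not_or] at hcon
      obtain ⟨c1, c2⟩ := hcon
      simp only [R948.zeros, Set.mem_ofPred_eq, not_forall] at c1 c2
      obtain ⟨f, hf, hf2⟩ := c1
      obtain ⟨g, hg, hg2⟩ := c2
      have h5 := h _ ⟨f, hf, g, hg, rfl⟩
      rw [map_mul] at h5
      exact (mul_ne_zero hf2 hg2) h5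

/-- irreducible components -/
def TComp (W B : Set (ι → kˣ)) : Prop :=
  Subvariety W ∧ W ⊆ B ∧ ∀ W', Subvariety W' → W ⊆ W' → W' ⊆ B → W' = W

theorem TComp.minimal [IsAlgClosed k] {W B : Set (ι → kˣ)} (hB : ZClosed B) (h : TComp W B) :
    van W ∈ (van B).minimalPrimes := by
  obtain ⟨hW, hWB, hmax⟩ := h
  refine ⟨⟨hW.prime, van_anti hWB⟩, ?_⟩
  rintro P ⟨hP, hP1⟩ hP2
  let P' : TP k ι := ⟨P, hP, fun i hi => (toTP hW).tor i (hP2 hi)⟩
  have h1 : zeros (P'.I : Set (MvPolynomial ι k)) = W := by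
    refine hmax _ (sub_zeros P') ?_ ?_
    · exact (subset_tcl W).trans (zeros_anti hP2)
    · rw [← hB.eq]
      exact zeros_anti hP1
  have h2 := van_zeros P'
  rw [h1] at h2
  rw [h2]

theorem t_finite_comp [IsAlgClosed k] {B : Set (ι → kˣ)} (hB : ZClosed B) :
    {W | TComp W B}.Finite := by
  refine Set.Finite.of_finite_image (f := van)
    ((Ideal.finite_minimalPrimes_of_isNoetherianRing _ (van B)).subset ?_) ?_
  · rintro _ ⟨W, hW, rfl⟩
    exact TComp.minimal hB hW
  · rintro A hA A' hA' h1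
    rw [← hA.1.closed.eq, ← hA'.1.closed.eq, h1]

theorem t_exists_comp [IsAlgClosed k] {A B : Set (ι → kˣ)} (hA : Subvariety A) (hB : ZClosed B)
    (h : A ⊆ B) : ∃ W, TComp W B ∧ A ⊆ W := by
  have hp := hA.prime
  obtain ⟨p, hp1, hp2⟩ := Ideal.exists_minimalPrimes_le (van_anti h)
  let P : TP k ι := ⟨p, hp1.1.1, fun i hi => (toTP hA).tor i (hp2 hi)⟩
  refine ⟨zeros (P.I : Set (MvPolynomial ι k)), ⟨sub_zeros P, ?_, ?_⟩,
    (subset_tcl A).trans (zeros_anti hp2)⟩
  · rw [← hB.eq]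
    exact zeros_anti hp1.1.2
  · intro W' hW' h1 h2
    have h3 : van W' ≤ p := by
      have := van_anti h1
      rwa [van_zeros] at this
    have h4 : p ≤ van W' := hp1.2 ⟨hW'.prime, van_anti h2⟩ h3
    rw [← hW'.closed.eq, le_antisymm h3 h4]

theorem t_vdim_strict {A B : Set (ι → kˣ)} (hA : Subvariety A) (hB : Subvariety B) (h : A ⊂ B) :
    vdim A < vdim B := by
  rw [vdim_eq hA, vdim_eq hB]
  refine tdP_strict (lt_of_le_of_ne (van_anti h.le) fun h1 => h.ne ?_)
  have h2 : van B = van A := h1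
  rw [← hA.closed.eq, ← hB.closed.eq, h2]

theorem t_exists_optimal {W V : Set (ι → kˣ)} (hW : Subvariety W) (h : W ⊆ V) :
    ∃ B, Optimal B V ∧ W ⊆ B ∧ defect B ≤ defect W := by
  let s : Set ℕ := {n | ∃ B, Subvariety B ∧ B ⊆ V ∧ W ⊆ B ∧ defect B ≤ defect W ∧ vdim B = n}
  have hs1 : s.Nonempty := ⟨_, W, hW, h, subset_rfl, le_rfl, rfl⟩
  have hs2 : BddAbove s := ⟨Fintype.card ι, by
    rintro _ ⟨B, hB, -, -, -, rfl⟩
    rw [vdim_eq hB]
    exact tdP_le_card _⟩
  obtain ⟨B, h1, h2, h3, h4, h5⟩ := Nat.sSup_mem hs1 hs2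
  refine ⟨B, ⟨h1, h2, fun B' hB' hBB' hB'V hd => ?_⟩, h3, h4⟩
  have h6 : vdim B' ∈ s := ⟨B', hB', hB'V, h3.trans hBB'.1, hd.trans h4, rfl⟩
  have h7 := le_csSup hs2 h6
  have h8 := t_vdim_strict h1 hB' hBB'
  omega

end

section

variable {F k : Type} [Field F] [Field k] [Algebra F k] {ι : Type} [Fintype ι]

/-- from algebraic to geometric optimal points -/
theorem optimal_pt_tor [IsAlgClosed k] (I : Ideal (MvPolynomial ι F)) (J : Finset ι) (c : J → k)
    (y : ι → kˣ) (h : OptPtT I J c y) :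
    Optimal {y} {x | (∀ f ∈ I, aeval (un x) f = 0) ∧ ∀ j : J, (x j : k) = c j} := by
  obtain ⟨h1, h2, h3⟩ := h
  refine ⟨sub_one' y, Set.singleton_subset_iff.2 ⟨h1, h2⟩, ?_⟩
  intro B hB hyB hBW
  have g1 : ∀ f ∈ I, aeval (un (toTP hB).pt) f = 0 := by
    intro f hf
    have h4 : MvPolynomial.map (algebraMap F k) f ∈ (toTP hB).I := by
      intro x hx
      rw [ev_eq, MvPolynomial.aeval_map_algebraMap]
      exact (hBW hx).1 f hf
    rw [← TP.aeval_pt_eq_zero, MvPolynomial.aeval_map_algebraMap] at h4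
    exact h4
  have g2 : ∀ j : J, un (toTP hB).pt j = algebraMap k (toTP hB).fld (c j) := by
    intro j
    have g3 : (X (j : ι) - C (c j) : MvPolynomial ι k) ∈ (toTP hB).I := by
      intro x hx
      rw [map_sub, eval_X, eval_C, sub_eq_zero]
      exact (hBW hx).2 j
    rw [← TP.aeval_pt_eq_zero, map_sub, aeval_X, aeval_C, sub_eq_zero] at g3
    exact g3
  have g3 : Spec k (toTP hB).pt y := by
    intro f hf
    rw [TP.aeval_pt_eq_zero] at hf
    exact hf y (hyB.1 rfl)
  have g4 : TP.ofPt y ≠ toTP hB := by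
    intro heq
    apply hyB.ne
    have g5 : van ({y} : Set (ι → kˣ)) = van B := by
      have := congrArg TP.I heq
      rw [← toTP_one] at this
      exact this
    rw [← (sub_one' y).closed.eq, ← hB.closed.eq, g5]
  have g5 := h3 (toTP hB) g1 g2 g3 g4
  rw [defect_one, defect_eq hB]
  exact g5

theorem mem_lineI {M : ℕ} (x : Fin M ⊕ Fin M → kˣ) :
    (∀ f ∈ lineI F M, aeval (un x) f = 0) ↔ ∀ i, (x (Sum.inl i) : k) + (x (Sum.inr i) : k) = 1 := by
  constructor
  · intro h i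
    have h1 := h _ (Ideal.subset_span ⟨i, rfl⟩)
    rw [map_sub, map_add, aeval_X, aeval_X, map_one, sub_eq_zero] at h1
    exact h1
  · intro h f hf
    refine Submodule.span_induction (p := fun f _ => aeval (un x) f = 0) ?_ ?_ ?_ ?_ hf
    · rintro _ ⟨i, rfl⟩
      rw [map_sub, map_add, aeval_X, aeval_X, map_one, sub_eq_zero]
      exact h i
    · exact map_zero _
    · intro a b _ _ ha hb
      rw [map_add, ha, hb, add_zero]
    · intro a b _ hb
      rw [smul_eq_mul, map_mul, hb, mul_zero]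

end

/-- the field of the algebraic numbers in `ℂ` -/
abbrev Qa : Type := algebraicClosure ℚ ℂ

theorem qa_alg : Algebra.IsAlgebraic ℚ Qa := algebraicClosure.isAlgebraic ℚ ℂ

instance instQa : IsAlgClosed Qa := (algebraicClosure.isAlgClosure ℚ ℂ).isAlgClosed

theorem t_exists_indep (α : Type) [Finite α] : ∃ c : α → ℂ, AlgebraicIndependent ℚ c := by
  obtain ⟨u, hu⟩ := Pool.Agent.BezHen.exists_param
  have := Fintype.ofFinite α
  exact ⟨_, hu.comp (fun a => (Fintype.equivFin α a : ℕ)) (fun a b h =>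
    (Fintype.equivFin α).injective (Fin.val_injective h))⟩

/-- the slice of the power of the line -/
def lineSlice (M : ℕ) (J : Finset (Fin M)) (γ : Fin M → ℂ) : Set (Fin M ⊕ Fin M → ℂˣ) :=
  {y | y ∈ linePow ℂ M ∧ ∀ j ∈ J, (y (Sum.inl j) : ℂ) = γ j}

theorem fin_line (M : ℕ) (H : ∀ J : Finset (Fin M), ∃ γ : Fin M → ℂ, AlgebraicIndependent ℚ γ ∧
    {x | Optimal {x} (lineSlice M J γ)}.Finite) : Fin' (lineI Qa M) := by
  classical
  choose γ hγ1 hγ2 using H
  let pr : Finset (Fin M ⊕ Fin M) → Finset (Fin M) := fun J =>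
    Finset.univ.filter fun i => Sum.inl i ∈ J
  let e : Fin M ⊕ Fin M → Fin M := Sum.elim id id
  let S₀ : Finset (Fin M ⊕ Fin M) := Finset.univ.image Sum.inl
  refine fin_of_slices_tor (k := ℂ) (lineI Qa M) S₀ (fun P hP => ?_)
    (fun J j => γ (pr J) (e j)) (fun J hJ => ?_) (fun J hJ => ?_)
  · have h1 := (mem_lineI (F := Qa) P.pt).1 fun f hf => (P.aeval_pt_eq_zero f).2 (hP hf)
    have h2 : ∀ i, IsAlgebraic (Algebra.adjoin Qa (un P.pt '' (S₀ : Set (Fin M ⊕ Fin M))))
        (un P.pt (Sum.inl i)) := by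
      intro i
      exact isAlgebraic_algebraMap (A := P.fld) (⟨_, Algebra.subset_adjoin
        ⟨Sum.inl i, Finset.mem_coe.2 (Finset.mem_image_of_mem _ (Finset.mem_univ i)), rfl⟩⟩ :
          Algebra.adjoin Qa (un P.pt '' (S₀ : Set (Fin M ⊕ Fin M))))
    rintro (i | i)
    · exact h2 i
    · have h3 : un P.pt (Sum.inr i) = 1 - un P.pt (Sum.inl i) := eq_sub_of_add_eq' (h1 i)
      rw [h3]
      exact (isAlgebraic_one).sub (h2 i)
  · have : Algebra.IsAlgebraic ℚ Qa := qa_alg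
    refine ((hγ1 (pr J)).comp (fun j : J => e j) ?_).extendScalars Qa
    intro a b hab
    obtain ⟨a', -, ha⟩ := Finset.mem_image.1 (hJ a.2)
    obtain ⟨b', -, hb⟩ := Finset.mem_image.1 (hJ b.2)
    apply Subtype.ext
    simp only [e, ← ha, ← hb, Sum.elim_inl, id] at hab ⊢
    rw [hab]
  · refine (hγ2 (pr J)).subset fun y hy => ?_
    have h1 := optimal_pt_tor (lineI Qa M) J _ y hy
    have h2 : {x : Fin M ⊕ Fin M → ℂˣ | (∀ f ∈ lineI Qa M, aeval (un x) f = 0) ∧
        ∀ j : J, (x j : ℂ) = γ (pr J) (e j)} = lineSlice M (pr J) (γ (pr J)) := by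
      ext x
      refine and_congr (mem_lineI (F := Qa) x) ⟨fun h j hj => ?_, fun h j => ?_⟩
      · exact h ⟨Sum.inl j, (Finset.mem_filter.1 hj).2⟩
      · obtain ⟨a, ha⟩ := j
        obtain ⟨a', -, rfl⟩ := Finset.mem_image.1 (hJ ha)
        exact h a' (Finset.mem_filter.2 ⟨Finset.mem_univ _, ha⟩)
    rw [h2] at h1
    exact h1

/-- from the slices to all closed sets -/
theorem t_all_of_slices (H : ∀ (M : ℕ) (J : Finset (Fin M)), ∃ γ : Fin M → ℂ,
      AlgebraicIndependent ℚ γ ∧ {x | Optimal {x} (lineSlice M J γ)}.Finite)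
    {k : Type} [Field k] [IsAlgClosed k] [CharZero k] {ι : Type} [Fintype ι] (V : Set (ι → kˣ))
    (hV : ZClosed V) : {A | Optimal A V}.Finite := by
  have h2 : CharZero Qa := inferInstance
  exact finite_optimal hV (fin_aux qa_alg (fun M => fin_line M (H M)) k (van V))

/-- slices are linear varieties -/
theorem t_slice_linear (M : ℕ) (J : Finset (Fin M)) (γ : Fin M → ℂ) :
    ∃ S : Set (MvPolynomial (Fin M ⊕ Fin M) ℂ), (∀ f ∈ S, f.totalDegree ≤ 1) ∧
      lineSlice M J γ = zeros S := by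
  refine ⟨(Set.range fun i : Fin M => X (Sum.inl i) + X (Sum.inr i) - 1) ∪
    (Set.range fun j : J => X (Sum.inl (j : Fin M)) - C (γ j)), ?_, ?_⟩
  · rintro f (⟨i, rfl⟩ | ⟨j, rfl⟩)
    · refine (totalDegree_sub _ _).trans (max_le ((totalDegree_add _ _).trans (max_le ?_ ?_)) ?_) <;>
        simp
    · refine (totalDegree_sub _ _).trans (max_le ?_ ?_) <;> simp
  · ext x
    constructor
    · rintro ⟨h1, h2⟩ f (⟨i, rfl⟩ | ⟨j, rfl⟩)
      · simp only [map_sub, map_add, eval_X, map_one]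
        rw [h1 i, sub_self]
      · simp only [map_sub, eval_X, eval_C]
        rw [h2 j j.2, sub_self]
    · intro h
      refine ⟨fun i => ?_, fun j hj => ?_⟩
      · have h1 := h _ (Or.inl ⟨i, rfl⟩)
        simp only [map_sub, map_add, eval_X, map_one, sub_eq_zero] at h1
        exact h1
      · have h1 := h _ (Or.inr ⟨⟨j, hj⟩, rfl⟩)
        simp only [map_sub, eval_X, eval_C, sub_eq_zero] at h1
        exact h1

end Pool.Agent.N902.OP
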