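import Pool.Agent.N902.OP.GeoT

/-!
# Optimal points of subvarieties of tori and Zilber's conjecture
-/

set_option autoImplicit false
set_option linter.unusedSectionVars false
set_option linter.style.haveILetI false

namespace Pool.Agent.N902.OP

open MvPolynomial Pool.Agent.R948

section

variable {ι G : Type} [Fintype ι] [CommGroup G]

theorem mon_comp_inj {m : ℕ} (z : ι → G) (a : Fin m → ι) (ha : Function.Injective a) (d : ι → ℤ)
    (hd : ∀ i, i ∉ Set.range a → d i = 0) : mon (z ∘ a) (d ∘ a) = mon z d := by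
  rw [mon, mon]
  refine Fintype.prod_of_injective a ha _ _ (fun i hi => ?_) fun i => rfl
  rw [hd i hi, zpow_zero]

/-- coordinates which are independent modulo the relations -/
theorem sub_rank (z : ι → G) : ∃ (m : ℕ) (a : Fin m → ι), Function.Injective a ∧
    m + dr z = Fintype.card ι ∧ dr (z ∘ a) = 0 ∧
    ∀ i, ∃ N : ℕ, 0 < N ∧ ∃ c : Fin m → ℤ, z i ^ N = mon (z ∘ a) c := by
  classical
  let W := rel z
  let e : ι → ((ι → ℚ) ⧸ W) := fun i => W.mkQ (Pi.single i 1)
  obtain ⟨κ', a', ha', hspan, hli⟩ := exists_linearIndependent' ℚ e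
  have hκ' : Finite κ' := Finite.of_injective a' ha'
  have : Fintype κ' := Fintype.ofFinite κ'
  let eq := (Fintype.equivFin κ').symm
  obtain ⟨m, hm⟩ : ∃ m, m = Fintype.card κ' := ⟨_, rfl⟩
  obtain ⟨a, ha⟩ : ∃ a : Fin (Fintype.card κ') → ι, a = a' ∘ eq := ⟨_, rfl⟩
  have ha1 : Function.Injective a := by
    rw [ha]
    exact ha'.comp eq.injective
  have hspan' : Submodule.span ℚ (Set.range (e ∘ a)) = Submodule.span ℚ (Set.range e) := by
    rw [← hspan, ha, ← Function.comp_assoc, Set.range_comp (e ∘ a') eq, eq.range_eq_univ,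
      Set.image_univ]
  have hli' : LinearIndependent ℚ (e ∘ a) := by
    rw [ha, ← Function.comp_assoc]
    exact hli.comp _ eq.injective
  have htop : Submodule.span ℚ (Set.range e) = ⊤ := by
    have h1 : Set.range e = W.mkQ '' Set.range (fun i => (Pi.single i 1 : ι → ℚ)) := by
      rw [← Set.range_comp]
      rfl
    have h2 : Submodule.span ℚ (Set.range (fun i => (Pi.single i 1 : ι → ℚ))) = ⊤ := by
      have := (Pi.basisFun ℚ ι).span_eq
      rw [← this]
      congr 1
    rw [h1, ← Submodule.map_span, h2, Submodule.map_top, Submodule.range_mkQ]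
  rw [htop] at hspan'
  have hcard : Fintype.card κ' + Module.finrank ℚ W = Fintype.card ι := by
    have h1 : Module.finrank ℚ ((ι → ℚ) ⧸ W) = Fintype.card (Fin (Fintype.card κ')) :=
      Module.finrank_eq_card_basis (Module.Basis.mk hli' hspan'.ge)
    have h2 := W.finrank_quotient_add_finrank
    rw [h1, Module.finrank_pi, Fintype.card_fin] at h2
    exact h2
  refine ⟨_, a, ha1, hcard, ?_, fun i => ?_⟩
  · have h1 : rel (z ∘ a) = ⊥ := by
      rw [eq_bot_iff]
      rintro v ⟨N, hN, d, hd, h⟩
      let D : ι → ℤ := Function.extend a d (0 : ι → ℤ)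
      have hD : ∀ k, D (a k) = d k := fun k => ha1.extend_apply d (0 : ι → ℤ) k
      have hD0 : ∀ i, i ∉ Set.range a → D i = 0 := fun i hi =>
        Function.extend_apply' d (0 : ι → ℤ) i fun ⟨k, hk⟩ => hi ⟨k, hk⟩
      have h2 : mon z D = 1 := by
        rw [← mon_comp_inj z a ha1 D hD0, ← h]
        congr 1
        funext k
        exact hD k
      have h3 : (fun i => (D i : ℚ)) ∈ W := (mem_rel_int z D).2 ⟨1, one_pos, by rw [h2, one_pow]⟩
      have h4 : (fun i => (D i : ℚ)) = ∑ k, (d k : ℚ) • (Pi.single (a k) 1 : ι → ℚ) := by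
        funext i
        rw [Finset.sum_apply]
        by_cases hi : i ∈ Set.range a
        · obtain ⟨k, rfl⟩ := hi
          rw [hD, Finset.sum_eq_single k]
          · simp
          · intro k' _ hk'
            have : a k ≠ a k' := fun h => hk' (ha1 h).symm
            simp [Pi.single_eq_of_ne this]
          · simp
        · rw [hD0 i hi]
          have : ∀ k, i ≠ a k := fun k hk => hi ⟨k, hk.symm⟩
          simp [Pi.single_eq_of_ne (this _)]
      have h5 : ∑ k, (d k : ℚ) • (e ∘ a) k = 0 := by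
        have h6 : W.mkQ (fun i => (D i : ℚ)) = 0 := by
          rw [Submodule.mkQ_apply, Submodule.Quotient.mk_eq_zero]
          exact h3
        rw [h4, map_sum] at h6
        simp only [map_smul] at h6
        exact h6
      have h6 := Fintype.linearIndependent_iff.1 hli' _ h5
      rw [Submodule.mem_bot]
      funext k
      have h7 := hd k
      rw [h6 k] at h7
      have hN' : (N : ℚ) ≠ 0 := by exact_mod_cast hN.ne'
      simpa [hN'] using h7.symm
    rw [dr, h1, finrank_bot]
  · have h1 : e i ∈ Submodule.span ℚ (Set.range (e ∘ a)) := by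
      rw [hspan']
      trivial
    rw [Submodule.mem_span_range_iff_exists_fun] at h1
    obtain ⟨c, hc⟩ := h1
    have h2 : (Pi.single i 1 : ι → ℚ) - ∑ k, c k • (Pi.single (a k) 1 : ι → ℚ) ∈ W := by
      rw [← Submodule.Quotient.mk_eq_zero]
      have h3 : W.mkQ ((Pi.single i 1 : ι → ℚ) - ∑ k, c k • (Pi.single (a k) 1 : ι → ℚ)) =
          e i - ∑ k, c k • e (a k) := by
        rw [map_sub, map_sum]
        simp only [map_smul]
        rfl
      have h4 : e i - ∑ k, c k • e (a k) = 0 := by
        rw [← hc]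
        simp
      rw [h4] at h3
      exact h3
    obtain ⟨N, hN, d, hd, h⟩ := h2
    let g : ι → ℤ := (N : ℤ) • (Pi.single i 1 : ι → ℤ) + -d
    have hg : ∀ i', i' ∉ Set.range a → g i' = 0 := by
      intro i' hi'
      have h6 : (g i' : ℚ) = 0 := by
        simp only [g, Pi.add_apply, Pi.smul_apply, Pi.neg_apply]
        push_cast
        rw [hd]
        have h7 : ∀ k, (Pi.single (a k) 1 : ι → ℚ) i' = 0 := by
          intro k
          rw [Pi.single_eq_of_ne]
          intro h8
          exact hi' ⟨k, h8.symm⟩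
        rw [Pi.sub_apply, Finset.sum_apply]
        simp only [Pi.smul_apply, h7, smul_zero, Finset.sum_const_zero, sub_zero]
        by_cases h9 : i' = i
        · subst h9
          simp
        · simp [Pi.single_eq_of_ne h9]
      exact_mod_cast h6
    refine ⟨N, hN, g ∘ a, ?_⟩
    rw [mon_comp_inj z a ha1 g hg, mon_add, mon_smul, mon_neg, h, inv_one, mul_one, zpow_natCast]
    congr 1
    rw [mon, Finset.prod_eq_single i]
    · simp
    · intro b _ hb
      simp [Pi.single_eq_of_ne hb]
    · simp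

/-- forgetting coordinates -/
theorem dr_comp_inj {m : ℕ} (z : ι → G) (a : Fin m → ι) (ha : Function.Injective a) :
    dr z + m ≤ dr (z ∘ a) + Fintype.card ι := by
  classical
  let κ := {i // i ∉ Set.range a}
  let f : rel z →ₗ[ℚ] (κ → ℚ) := (LinearMap.funLeft ℚ ℚ (Subtype.val : κ → ι)).domRestrict (rel z)
  have h1 := LinearMap.finrank_range_add_finrank_ker f
  have h2 : Module.finrank ℚ (LinearMap.range f) + m ≤ Fintype.card ι := by
    have h3 := Submodule.finrank_le (LinearMap.range f)
    rw [Module.finrank_pi] at h3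
    have h4 : Fintype.card κ = Fintype.card ι - m := by
      have h5 : Fintype.card (Set.range a) = m := by
        rw [Set.card_range_of_injective ha, Fintype.card_fin]
      have h6 : Fintype.card κ = Fintype.card ι - Fintype.card {i // i ∈ Set.range a} :=
        Fintype.card_subtype_compl _
      rw [h6]
      congr 1
    have h5 : m ≤ Fintype.card ι := by
      have := Fintype.card_le_of_injective a ha
      rwa [Fintype.card_fin] at this
    omega
  let g : LinearMap.ker f →ₗ[ℚ] rel (z ∘ a) :=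
    LinearMap.codRestrict (rel (z ∘ a))
      ((LinearMap.funLeft ℚ ℚ a).comp ((rel z).subtype.comp (LinearMap.ker f).subtype)) (by
        rintro ⟨⟨v, hv⟩, hk⟩
        have hk' : ∀ i, i ∉ Set.range a → v i = 0 := fun i hi =>
          congrFun (LinearMap.mem_ker.1 hk) (⟨i, hi⟩ : κ)
        obtain ⟨N, hN, d, hd, h⟩ := hv
        refine ⟨N, hN, d ∘ a, fun k => hd (a k), ?_⟩
        rw [mon_comp_inj z a ha d, h]
        intro i hi
        have h3 := hd i
        rw [hk' i hi, mul_zero] at h3
        exact_mod_cast h3)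
  have hg : Function.Injective g := by
    rintro ⟨⟨v, hv⟩, hk⟩ ⟨⟨w, hw⟩, hl⟩ h0
    have hk' : ∀ i, i ∉ Set.range a → v i = 0 := fun i hi =>
      congrFun (LinearMap.mem_ker.1 hk) (⟨i, hi⟩ : κ)
    have hl' : ∀ i, i ∉ Set.range a → w i = 0 := fun i hi =>
      congrFun (LinearMap.mem_ker.1 hl) (⟨i, hi⟩ : κ)
    have h3 : ∀ k, v (a k) = w (a k) := fun k =>
      congrFun (congrArg Subtype.val h0) k
    apply Subtype.ext
    apply Subtype.ext
    funext i
    by_cases hi : i ∈ Set.range a
    · obtain ⟨k, rfl⟩ := hi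
      exact h3 k
    · exact (hk' i hi).trans (hl' i hi).symm
  have h3 := LinearMap.finrank_le_finrank_of_injective hg
  rw [dr, dr]
  omega

/-- subgroups of the group of relations -/
theorem le_dr (z : ι → G) (Λ : Submodule ℤ (ι → ℤ)) (h : ∀ a ∈ Λ, mon z a = 1) :
    Module.finrank ℤ Λ ≤ dr z := by
  classical
  let b := Module.finBasis ℤ Λ
  let cast : (ι → ℤ) →ₗ[ℤ] (ι → ℚ) :=
    { toFun := fun v i => (v i : ℚ)
      map_add' := fun v w => by funext i; simp
      map_smul' := fun c v => by funext i; simp }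
  have hinj : Function.Injective cast := fun v w hvw => by
    funext i
    have h0 : (v i : ℚ) = (w i : ℚ) := congrFun hvw i
    exact_mod_cast h0
  have h1 : LinearIndependent ℤ (fun j => cast (b j : ι → ℤ)) := by
    have h2 : LinearIndependent ℤ (fun j => (b j : ι → ℤ)) :=
      b.linearIndependent.map' Λ.subtype (Submodule.ker_subtype Λ)
    exact h2.map' cast (LinearMap.ker_eq_bot.2 hinj)
  have h2 : LinearIndependent ℚ (fun j => cast (b j : ι → ℤ)) :=
    (LinearIndependent.iff_fractionRing ℤ ℚ).1 h1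
  have h3 : ∀ j, cast (b j : ι → ℤ) ∈ rel z := fun j =>
    (mem_rel_int z _).2 ⟨1, one_pos, by rw [pow_one]; exact h _ (b j).2⟩
  let v : Fin (Module.finrank ℤ Λ) → rel z := fun j => ⟨_, h3 j⟩
  have h4 : LinearIndependent ℚ v := by
    refine LinearIndependent.of_comp (rel z).subtype ?_
    exact h2
  have h5 := h4.fintype_card_le_finrank
  rw [Fintype.card_fin] at h5
  exact h5

theorem exists_lat (z : ι → G) : ∃ Λ : Submodule ℤ (ι → ℤ), Module.finrank ℤ Λ = dr z ∧
    ∀ a ∈ Λ, mon z a = 1 := by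
  classical
  let u := Module.finBasis ℚ (rel z)
  choose N hN b hb h using fun j => exists_int_of_mem_rel (u j).2
  have h1 : LinearIndependent ℚ (fun j => ((u j : rel z) : ι → ℚ)) :=
    u.linearIndependent.map' (rel z).subtype (Submodule.ker_subtype _)
  have h2 : LinearIndependent ℚ (fun j => (fun i => (b j i : ℚ) : ι → ℚ)) := by
    have h3 : (fun j => (fun i => (b j i : ℚ) : ι → ℚ)) =
        (fun j : Fin (Module.finrank ℚ (rel z)) => Units.mk0 (N j : ℚ)
          (by exact_mod_cast (hN j).ne')) • (fun j => ((u j : rel z) : ι → ℚ)) := by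
      funext j i
      rw [Pi.smul_apply', Units.smul_def, Pi.smul_apply, smul_eq_mul, Units.val_mk0]
      exact hb j i
    rw [h3]
    exact h1.units_smul _
  have h3 : LinearIndependent ℤ (fun j => (fun i => (b j i : ℚ) : ι → ℚ)) :=
    (LinearIndependent.iff_fractionRing ℤ ℚ).2 h2
  let cast : (ι → ℤ) →ₗ[ℤ] (ι → ℚ) :=
    { toFun := fun v i => (v i : ℚ)
      map_add' := fun v w => by funext i; simp
      map_smul' := fun c v => by funext i; simp }
  have h4 : LinearIndependent ℤ b := LinearIndependent.of_comp cast h3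
  refine ⟨Submodule.span ℤ (Set.range b), ?_, ?_⟩
  · rw [finrank_span_eq_card h4, Fintype.card_fin]
    rfl
  · intro a ha
    refine Submodule.span_induction (p := fun a _ => mon z a = 1) ?_ ?_ ?_ ?_ ha
    · rintro _ ⟨j, rfl⟩
      exact h j
    · exact mon_zero z
    · intro a b _ _ ha hb
      rw [mon_add, ha, hb, one_mul]
    · intro c a _ ha
      rw [mon_smul, ha, one_zpow]

end

/-! ### Zilber's form -/

section

variable {k : Type} [Field k] [IsAlgClosed k]

/-- Zilber's conjecture implies the finiteness of the optimal points -/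
theorem t_points_of_zilber (H : ∀ (n : ℕ) (Y : Set (Fin n → kˣ)), Subvariety Y →
      (∀ f : MvPolynomial (Fin n) k, (∀ x ∈ Y, vdim Y + 1 ≤ dr x →
        MvPolynomial.eval (fun i => (x i : k)) f = 0) →
          ∀ x ∈ Y, MvPolynomial.eval (fun i => (x i : k)) f = 0) →
      ∃ a : Fin n → ℤ, a ≠ 0 ∧ ∀ x ∈ Y, mon x a = 1)
    {ι : Type} [Fintype ι] (V : Set (ι → kˣ)) (hV : ZClosed V) : {x | Optimal {x} V}.Finite := by
  classical
  by_contra hinf
  have h1 : {x | Optimal {x} V} ⊆ ⋃ d ∈ (Finset.range (Fintype.card ι + 1) : Set ℕ),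
      {x | Optimal {x} V ∧ dr x = d} := by
    intro x hx
    exact Set.mem_biUnion (Finset.mem_coe.2 (Finset.mem_range.2 (Nat.lt_succ_of_le
      (dr_le_card x)))) ⟨hx, rfl⟩
  obtain ⟨d, hd⟩ : ∃ d : ℕ, {x | Optimal {x} V ∧ dr x = d}.Infinite := by
    by_contra hcon
    push Not at hcon
    apply hinf
    refine Set.Finite.subset (Set.Finite.biUnion (Finset.finite_toSet _) fun d _ => ?_) h1
    exact hcon d
  obtain ⟨E, hE⟩ : ∃ E, E = {x | Optimal {x} V ∧ dr x = d} := ⟨_, rfl⟩
  rw [← hE] at hd
  have hcl := zclosed_tcl E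
  have hfin := t_finite_comp hcl
  -- a component with infinitely many points
  have h2 : E ⊆ ⋃ W ∈ {W | TComp W (tcl E)}, E ∩ W := by
    intro x hx
    obtain ⟨W, hW1, hW2⟩ := t_exists_comp (sub_one' x) hcl
      (Set.singleton_subset_iff.2 (subset_tcl E hx))
    exact Set.mem_biUnion (show W ∈ {W | TComp W (tcl E)} from hW1) ⟨hx, hW2 rfl⟩
  obtain ⟨W, hW, hW2⟩ : ∃ W, TComp W (tcl E) ∧ (E ∩ W).Infinite := by
    by_contra hcon
    push Not at hcon
    apply hd
    refine Set.Finite.subset (Set.Finite.biUnion hfin fun W hW => ?_) h2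
    exact hcon W hW
  -- it is dense
  have h3 : W ⊆ tcl (E ∩ W) := by
    have h4 : tcl E ⊆ ⋃ W' ∈ hfin.toFinset, tcl (E ∩ W') := by
      refine tcl_subset (t_closed_union hfin.toFinset fun W' => E ∩ W') ?_
      intro x hx
      obtain ⟨W', hW', hx2⟩ := Set.mem_iUnion₂.1 (h2 hx)
      exact Set.mem_iUnion₂.2 ⟨W', hfin.mem_toFinset.2 hW', subset_tcl _ hx2⟩
    obtain ⟨W', hW', h5⟩ := t_finite_union hW.1 hfin.toFinset (fun W' => tcl (E ∩ W'))
      (fun W' => zclosed_tcl _) (hW.2.1.trans h4)
    have hW'' := hfin.mem_toFinset.1 hW'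
    have h6 : W ⊆ W' := h5.trans (tcl_subset hW''.1.closed Set.inter_subset_right)
    have h7 : W' = W := hW.2.2 W' hW''.1 h6 hW''.2.1
    rw [h7] at h5
    exact h5
  have h4 : defect W ≤ Fintype.card ι - (d : ℤ) := by
    by_contra hlt
    push Not at hlt
    let P : TP k ι := toTP hW.1
    have hdef : defect W = (Fintype.card ι : ℤ) - dr P.pt - vdim W := by
      rw [defect_eq hW.1, vdim_eq hW.1, ← TP.td_pt]
      rfl
    obtain ⟨m, a, ha, hm, ha0, halg⟩ := sub_rank P.pt
    let η : Fin m → P.fldˣ := P.pt ∘ a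
    let Q : TP k (Fin m) := TP.ofPt η
    let Y : Set (Fin m → kˣ) := R948.zeros (Q.I : Set (MvPolynomial (Fin m) k))
    have hY : Subvariety Y := sub_zeros Q
    have hvY : van Y = Q.I := van_zeros Q
    have hren : ∀ f : MvPolynomial (Fin m) k, f ∈ Q.I ↔ rename a f ∈ van W := by
      intro f
      have e1 : rename a f ∈ van W ↔ aeval (un P.pt) (rename a f) = 0 :=
        (P.aeval_pt_eq_zero _).symm
      rw [e1, aeval_rename]
      exact Iff.rfl
    have hev : ∀ (x : ι → kˣ) (f : MvPolynomial (Fin m) k),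
        MvPolynomial.eval (fun i => (x i : k)) (rename a f) =
          MvPolynomial.eval (fun i => ((x ∘ a) i : k)) f := by
      intro x f
      rw [eval_rename]
      rfl
    have hmap : ∀ x ∈ W, x ∘ a ∈ Y := by
      intro x hx f hf
      rw [← hev]
      exact (hren f).1 hf x hx
    have hvd : vdim Y = vdim W := by
      have e1 : vdim Y = td k (un η) := by
        have e3 : toTP hY = Q := TP.ext' hvY
        rw [vdim_eq hY, e3, ← TP.td_pt]
        exact le_antisymm (Spec.td_le (F := k) (z := η) (z' := Q.pt) fun f hf => by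
          rwa [TP.aeval_pt_eq_zero, TP.mem_ofPt])
          (Spec.td_le (F := k) (z := Q.pt) (z' := η) fun f hf => by
          rwa [TP.aeval_pt_eq_zero, TP.mem_ofPt] at hf)
      have e2 : vdim W = td k (un P.pt) := by
        rw [vdim_eq hW.1, ← TP.td_pt]
      rw [e1, e2]
      refine le_antisymm (td_le_of_alg k fun i => ?_) (td_le_of_alg k fun i => ?_)
      · exact isAlgebraic_algebraMap (A := P.fld) (⟨_, Algebra.subset_adjoin ⟨a i, rfl⟩⟩ :
          Algebra.adjoin k (Set.range (un P.pt)))
      · obtain ⟨N, hN, c, hc⟩ := halg i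
        exact alg_of_zpow η (P.pt i) N hN c hc
    obtain ⟨b, hb0, hb⟩ := H m Y hY (fun f hf => by
      have e1 : rename a f ∈ van W := by
        have e2 : van (E ∩ W) ≤ van W := by
          have := van_anti h3
          rwa [van_tcl] at this
        apply e2
        rintro x ⟨hxE, hxW⟩
        rw [hev]
        refine hf _ (hmap x hxW) ?_
        rw [hE] at hxE
        have e3 := dr_comp_inj x a ha
        rw [hxE.2] at e3
        have e4 : (vdim Y : ℤ) = vdim W := by rw [hvd]
        omega
      rw [← hren, ← hvY] at e1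
      exact e1)
    have hb1 : (binom 1 b : MvPolynomial (Fin m) k) ∈ Q.I := by
      rw [← hvY]
      intro x hx
      rw [ev_eq, aeval_binom, hb x hx, map_one, Units.val_one]
    have hb2 : mon η b = 1 := by
      have e1 : aeval (un η) (binom 1 b : MvPolynomial (Fin m) k) = 0 := hb1
      rw [aeval_binom, map_one] at e1
      exact Units.ext e1
    have hb3 : (fun i => (b i : ℚ)) ∈ rel η :=
      (mem_rel_int η b).2 ⟨1, one_pos, by rw [hb2, one_pow]⟩
    have hb4 : rel η = ⊥ := Submodule.finrank_eq_zero.1 ha0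
    rw [hb4, Submodule.mem_bot] at hb3
    apply hb0
    funext i
    have := congrFun hb3 i
    simpa using this
  obtain ⟨x, hxE, hxW⟩ := hW2.nonempty
  have hxE' := hxE
  rw [hE] at hxE'
  refine hxE'.1.2.2 W hW.1 ?_ ?_ ?_
  · refine lt_of_le_of_ne (Set.singleton_subset_iff.2 hxW) fun h => hW2 ?_
    rw [← h]
    exact (Set.finite_singleton x).inter_of_right E
  · refine hW.2.1.trans (tcl_subset hV ?_)
    intro z hz
    rw [hE] at hz
    exact hz.1.2.1 rfl
  · rw [defect_one, df_self, hxE'.2]
    exact h4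

/-- finiteness of the optimal subvarieties implies Zilber's conjecture -/
theorem t_zilber_of_optimal {n : ℕ} (Y : Set (Fin n → kˣ)) (hY : Subvariety Y)
    (h : {A | Optimal A Y}.Finite)
    (hd : ∀ f : MvPolynomial (Fin n) k, (∀ x ∈ Y, vdim Y + 1 ≤ dr x →
        MvPolynomial.eval (fun i => (x i : k)) f = 0) →
          ∀ x ∈ Y, MvPolynomial.eval (fun i => (x i : k)) f = 0) :
    ∃ a : Fin n → ℤ, a ≠ 0 ∧ ∀ x ∈ Y, mon x a = 1 := by
  classical
  by_contra hno
  push Not at hno
  let P : TP k (Fin n) := toTP hY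
  have hrel : rel P.pt = ⊥ := by
    rw [eq_bot_iff]
    intro v hv
    obtain ⟨N, hN, b, hb, hb2⟩ := exists_int_of_mem_rel hv
    have h1 : ∀ x ∈ Y, mon x b = 1 := by
      intro x hx
      have h2 : (binom 1 b : MvPolynomial (Fin n) k) ∈ P.I := by
        rw [binom_mem, hb2, map_one, Units.val_one]
      have h3 := h2 x hx
      rw [ev_eq, aeval_binom, map_one] at h3
      exact Units.ext h3
    have h2 : b = 0 := by
      by_contra hb0
      obtain ⟨x, hx, hx2⟩ := hno b hb0
      exact hx2 (h1 x hx)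
    rw [Submodule.mem_bot]
    funext i
    have h3 := hb i
    rw [h2] at h3
    have hN' : (N : ℚ) ≠ 0 := by exact_mod_cast hN.ne'
    simpa [hN'] using h3.symm
  have hdef : defect Y = (n : ℤ) - vdim Y := by
    have e1 : dr P.pt = 0 := by rw [dr, hrel, finrank_bot]
    rw [defect_eq hY, vdim_eq hY, ← TP.td_pt]
    have e2 : (toTP hY).df = (Fintype.card (Fin n) : ℤ) - dr P.pt - td k (un P.pt) := rfl
    rw [e2, e1, Fintype.card_fin]
    simp [P]
  have h1 : ({A | Optimal A Y ∧ defect A < defect Y}).Finite := h.subset fun A hA => hA.1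
  have h2 : {x | x ∈ Y ∧ vdim Y + 1 ≤ dr x} ⊆ ⋃ A ∈ h1.toFinset, tcl A := by
    rintro x ⟨hx, hx2⟩
    obtain ⟨B, hB1, hB2, hB3⟩ := t_exists_optimal (sub_one' x) (Set.singleton_subset_iff.2 hx)
    refine Set.mem_iUnion₂.2 ⟨B, h1.mem_toFinset.2 ⟨hB1, lt_of_le_of_lt hB3 ?_⟩,
      subset_tcl _ (hB2 rfl)⟩
    rw [defect_one, df_self, hdef, Fintype.card_fin]
    omega
  have h3 : Y ⊆ ⋃ A ∈ h1.toFinset, tcl A := by
    refine Set.Subset.trans ?_ (tcl_subset (t_closed_union h1.toFinset fun A => A) h2)
    intro x hx f hf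
    exact hd f (fun y hy hy2 => hf y ⟨hy, hy2⟩) x hx
  obtain ⟨A, hA, h4⟩ := t_finite_union hY h1.toFinset (fun A => tcl A)
    (fun A => zclosed_tcl _) h3
  have hA' := h1.mem_toFinset.1 hA
  have h5 : tcl A = A := hA'.1.1.closed.eq
  rw [h5] at h4
  have h6 : A = Y := Set.Subset.antisymm hA'.1.2.1 h4
  rw [h6] at hA'
  exact lt_irrefl _ hA'.2

/-- optimal points of closed sets -/
theorem t_points_of_optimal {ι : Type} [Fintype ι] (V : Set (ι → kˣ))
    (h : {A | Optimal A V}.Finite) : {x | Optimal {x} V}.Finite :=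
  Set.Finite.of_finite_image (f := fun x => ({x} : Set (ι → kˣ)))
    (h.subset (by rintro _ ⟨x, hx, rfl⟩; exact hx))
    (fun x _ y _ hxy => Set.singleton_injective hxy)

end

end Pool.Agent.N902.OP
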