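import Pool.Agent.N902.OP.Abs
import Pool.Agent.N101.ZP.XGeoB
import Pool.Agent.BezHen.Alg

/-!
# Optimal points of subvarieties of `Y(1)^n × G_m^k`
-/

set_option autoImplicit false
set_option linter.unusedSectionVars false
set_option linter.style.haveILetI false

namespace Pool.Agent.N902.OPX

open MvPolynomial Pool.Agent.N902.OP
open Pool.Agent.R948 (td tdP tdP_strict tdP_le_card)
open Pool.Agent.N101.ZP Pool.Agent.N101.YG

section

variable {ι κ : Type} [Fintype ι] [Fintype κ]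

theorem co_inj {p q : Pts ι κ} (h : co p = co q) : p = q :=
  Prod.ext (funext fun i => congrFun h (Sum.inl i))
    (funext fun j => Units.ext (congrFun h (Sum.inr j)))

theorem zclosed_one (y : Pts ι κ) : ZClosed ({y} : Set (Pts ι κ)) := by
  refine ⟨Set.range fun i => X i - C (co y i), ?_⟩
  ext x
  constructor
  · rintro h _ ⟨i, rfl⟩
    rw [Set.mem_singleton_iff.1 h]
    simp
  · intro h
    refine Set.mem_singleton_iff.2 (co_inj (funext fun i => ?_))
    have h1 := h _ ⟨i, rfl⟩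
    rw [map_sub, eval_X, eval_C, sub_eq_zero] at h1
    exact h1

theorem sub_one' (y : Pts ι κ) : Subvariety ({y} : Set (Pts ι κ)) where
  closed := zclosed_one y
  nonempty := ⟨y, rfl⟩
  irreducible := fun B C _ _ h => by
    rcases h (Set.mem_singleton y) with h1 | h1
    · exact Or.inl (Set.singleton_subset_iff.2 h1)
    · exact Or.inr (Set.singleton_subset_iff.2 h1)

theorem toPP_one (y : Pts ι κ) : toPP (sub_one' y) = PP.ofPt ℂ (co y) := by
  apply PP.ext'
  ext f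
  constructor
  · intro h
    exact h y rfl
  · intro h x hx
    rw [Set.mem_singleton_iff.1 hx]
    exact h

theorem ok_co (y : Pts ι κ) : xRT.Ok (xs ι κ) (co y) := by
  rintro (i | j) hi
  · exact absurd hi Bool.false_ne_true
  · exact (y.2 j).ne_zero

theorem df_one (y : Pts ι κ) :
    xRT.df ℂ (xs ι κ) (PP.ofPt ℂ (co y)).pt = xRT.df ℂ (xs ι κ) (co y) := by
  have e1 := PP.sp_ofPt (F := ℂ) (co y)
  have e2 := PP.sp_ofPt' (F := ℂ) (co y)
  have h1 : xRT.rk (xs ι κ) (PP.ofPt ℂ (co y)).pt = xRT.rk (xs ι κ) (co y) :=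
    xRT.rk_eq _ _ _ (sp_restrict (F := Fa) e1) (sp_restrict (F := Fa) e2) (ok_co y)
  have h2 : td ℂ (PP.ofPt ℂ (co y)).pt = td ℂ (co y) := le_antisymm e2.td_le e1.td_le
  rw [RT.df, RT.df, h1, h2]

theorem defect_one (y : Pts ι κ) : defect ({y} : Set (Pts ι κ)) = xRT.df ℂ (xs ι κ) (co y) := by
  rw [defect_eq (sub_one' y), toPP_one, df_one]

/-- the closure -/
def xcl (A : Set (Pts ι κ)) : Set (Pts ι κ) := zeros (van A : Set (MvPolynomial (ι ⊕ κ) ℂ))

theorem subset_xcl (A : Set (Pts ι κ)) : A ⊆ xcl A := subset_zeros_van A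

theorem zclosed_xcl (A : Set (Pts ι κ)) : ZClosed (xcl A) := ⟨_, rfl⟩

theorem xcl_subset {A B : Set (Pts ι κ)} (hB : ZClosed B) (h : A ⊆ B) : xcl A ⊆ B := by
  rw [← hB.eq]
  exact zeros_anti (van_anti h)

theorem van_xcl (A : Set (Pts ι κ)) : van (xcl A) = van A :=
  le_antisymm (van_anti (subset_xcl A)) (fun f hf _ hx => hx f hf)

theorem x_finite_union {A : Set (Pts ι κ)} (h : Subvariety A) {α : Type} (s : Finset α)
    (B : α → Set (Pts ι κ)) (hB : ∀ a, ZClosed (B a)) (hA : A ⊆ ⋃ a ∈ s, B a) :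
    ∃ a ∈ s, A ⊆ B a := by
  classical
  have hp := h.prime
  by_contra hcon
  push Not at hcon
  have h1 : ∀ a ∈ s, ∃ f ∈ van (B a), f ∉ van A := by
    intro a ha
    by_contra h2
    push Not at h2
    apply hcon a ha
    rw [← h.closed.eq, ← (hB a).eq]
    exact zeros_anti h2
  choose! f hf hf2 using h1
  have h2 : ∏ a ∈ s, f a ∈ van A := by
    intro x hx
    obtain ⟨a, ha, hxa⟩ := Set.mem_iUnion₂.1 (hA hx)
    rw [map_prod]
    exact Finset.prod_eq_zero ha (hf a ha x hxa)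
  obtain ⟨a, ha, h3⟩ := (hp.prod_mem_iff).1 h2
  exact hf2 a ha h3

theorem x_closed_union {α : Type} [DecidableEq α] (s : Finset α) (A : α → Set (Pts ι κ)) :
    ZClosed (⋃ a ∈ s, xcl (A a)) := by
  induction s using Finset.induction_on with
  | empty =>
    refine ⟨{1}, ?_⟩
    ext x
    simp [N101.YG.zeros]
  | insert a s _ ih =>
    rw [Finset.set_biUnion_insert]
    obtain ⟨S, hS⟩ := zclosed_xcl (A a)
    obtain ⟨S', hS'⟩ := ih
    rw [hS, hS']
    refine ⟨{h | ∃ f ∈ S, ∃ g ∈ S', h = f * g}, ?_⟩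
    ext x
    constructor
    · rintro (h | h) _ ⟨f, hf, g, hg, rfl⟩
      · rw [map_mul, h f hf, zero_mul]
      · rw [map_mul, h g hg, mul_zero]
    · intro h
      by_contra hcon
      rw [Set.mem_union, not_or] at hcon
      obtain ⟨c1, c2⟩ := hcon
      simp only [N101.YG.zeros, Set.mem_ofPred_eq, not_forall] at c1 c2
      obtain ⟨f, hf, hf2⟩ := c1
      obtain ⟨g, hg, hg2⟩ := c2
      have h5 := h _ ⟨f, hf, g, hg, rfl⟩
      rw [map_mul] at h5
      exact (mul_ne_zero hf2 hg2) h5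

/-- irreducible components -/
def XComp (W B : Set (Pts ι κ)) : Prop :=
  Subvariety W ∧ W ⊆ B ∧ ∀ W', Subvariety W' → W ⊆ W' → W' ⊆ B → W' = W

theorem XComp.minimal {W B : Set (Pts ι κ)} (hB : ZClosed B) (h : XComp W B) :
    van W ∈ (van B).minimalPrimes := by
  obtain ⟨hW, hWB, hmax⟩ := h
  refine ⟨⟨hW.prime, van_anti hWB⟩, ?_⟩
  rintro P ⟨hP, hP1⟩ hP2
  let P' : PP ℂ (ι ⊕ κ) := ⟨P, hP⟩
  have ha : Adm P' := fun j hj => toPP_adm hW j (hP2 hj)
  have h1 : zeros (P'.I : Set (MvPolynomial (ι ⊕ κ) ℂ)) = W := by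
    refine hmax _ (sub_zeros ha) ?_ ?_
    · exact (subset_xcl W).trans (zeros_anti hP2)
    · rw [← hB.eq]
      exact zeros_anti hP1
  have h2 := van_zeros ha
  rw [h1] at h2
  rw [h2]

theorem x_finite_comp {B : Set (Pts ι κ)} (hB : ZClosed B) : {W | XComp W B}.Finite := by
  refine Set.Finite.of_finite_image (f := van)
    ((Ideal.finite_minimalPrimes_of_isNoetherianRing _ (van B)).subset ?_) ?_
  · rintro _ ⟨W, hW, rfl⟩
    exact XComp.minimal hB hW
  · rintro A hA A' hA' h1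
    rw [← hA.1.closed.eq, ← hA'.1.closed.eq, h1]

theorem x_exists_comp {A B : Set (Pts ι κ)} (hA : Subvariety A) (hB : ZClosed B)
    (h : A ⊆ B) : ∃ W, XComp W B ∧ A ⊆ W := by
  have hp := hA.prime
  obtain ⟨p, hp1, hp2⟩ := Ideal.exists_minimalPrimes_le (van_anti h)
  let P : PP ℂ (ι ⊕ κ) := ⟨p, hp1.1.1⟩
  have ha : Adm P := fun j hj => toPP_adm hA j (hp2 hj)
  refine ⟨zeros (P.I : Set (MvPolynomial (ι ⊕ κ) ℂ)), ⟨sub_zeros ha, ?_, ?_⟩,
    (subset_xcl A).trans (zeros_anti hp2)⟩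
  · rw [← hB.eq]
    exact zeros_anti hp1.1.2
  · intro W' hW' h1 h2
    have h3 : van W' ≤ p := by
      have := van_anti h1
      rwa [van_zeros ha] at this
    have h4 : p ≤ van W' := hp1.2 ⟨hW'.prime, van_anti h2⟩ h3
    rw [← hW'.closed.eq, le_antisymm h3 h4]

theorem x_vdim_strict {A B : Set (Pts ι κ)} (hA : Subvariety A) (hB : Subvariety B) (h : A ⊂ B) :
    vdim A < vdim B := by
  rw [vdim_eq hA, vdim_eq hB]
  refine tdP_strict (lt_of_le_of_ne (van_anti h.le) fun h1 => h.ne ?_)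
  have h2 : van B = van A := h1
  rw [← hA.closed.eq, ← hB.closed.eq, h2]

theorem x_vdim_mono {A B : Set (Pts ι κ)} (hA : Subvariety A) (hB : Subvariety B) (h : A ⊆ B) :
    vdim A ≤ vdim B := by
  rcases h.eq_or_ssubset with h1 | h1
  · rw [h1]
  · exact (x_vdim_strict hA hB h1).le

theorem x_exists_optimal {W V : Set (Pts ι κ)} (hW : Subvariety W) (h : W ⊆ V) :
    ∃ B, Optimal B V ∧ W ⊆ B ∧ defect B ≤ defect W := by
  let s : Set ℕ := {n | ∃ B, Subvariety B ∧ B ⊆ V ∧ W ⊆ B ∧ defect B ≤ defect W ∧ vdim B = n}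
  have hs1 : s.Nonempty := ⟨_, W, hW, h, subset_rfl, le_rfl, rfl⟩
  have hs2 : BddAbove s := ⟨Fintype.card (ι ⊕ κ), by
    rintro _ ⟨B, hB, -, -, -, rfl⟩
    rw [vdim_eq hB]
    exact tdP_le_card _⟩
  obtain ⟨B, h1, h2, h3, h4, h5⟩ := Nat.sSup_mem hs1 hs2
  refine ⟨B, ⟨h1, h2, fun B' hB' hBB' hB'V hd => ?_⟩, h3, h4⟩
  have h6 : vdim B' ∈ s := ⟨B', hB', hB'V, h3.trans hBB'.1, hd.trans h4, rfl⟩
  have h7 := le_csSup hs2 h6
  have h8 := x_vdim_strict h1 hB' hBB'
  omega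

/-! ### slices -/

/-- from algebraic to geometric optimal points -/
theorem optimal_pt_x (LL : List (MvPolynomial (ι ⊕ κ) ℤ)) (J : Finset (ι ⊕ κ)) (c : J → ℂ)
    (y : ι ⊕ κ → ℂ) (h : OptPt xRT (xs ι κ) (polsZ (F := Fa) LL) J c y) :
    ∃ p : Pts ι κ, co p = y ∧ Optimal {p}
      {x | x ∈ zeros (spanZ ℂ LL : Set (MvPolynomial (ι ⊕ κ) ℂ)) ∧ ∀ j : J, co x j = c j} := by
  obtain ⟨h0, h1, h2, h3⟩ := h
  obtain ⟨p, hp⟩ : ∃ p : Pts ι κ, co p = y := by
    refine ⟨(fun i => y (Sum.inl i), fun j => Units.mk0 (y (Sum.inr j)) (h0 (Sum.inr j) rfl)), ?_⟩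
    funext i
    rcases i with i | i <;> rfl
  refine ⟨p, hp, ?_⟩
  have h4 : spanZ ℂ LL ≤ (PP.ofPt ℂ y).I := by
    rw [spanZ, Ideal.span_le]
    rintro _ ⟨H, hH, rfl⟩
    change aeval y (MvPolynomial.map (algebraMap ℤ ℂ) H) = 0
    rw [MvPolynomial.aeval_map_algebraMap, ← h1 H hH]
  refine ⟨sub_one' p, ?_, ?_⟩
  · rw [Set.singleton_subset_iff]
    refine ⟨fun f hf => ?_, fun j => ?_⟩
    · rw [hp]
      exact h4 hf
    · rw [hp]
      exact h2 j
  · intro B hB hyB hBW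
    have hy : p ∈ B := hyB.1 rfl
    have g1 : (polsZ (F := Fa) LL).sat (toPP hB).pt := by
      refine (spanZ_le (F := Fa) LL (toPP hB)).1 ?_
      intro f hf x hx
      exact (hBW hx).1 f hf
    have g2 : ∀ j : J, (toPP hB).pt j = algebraMap ℂ (toPP hB).fld (c j) := by
      intro j
      have g3 : (X (j : ι ⊕ κ) - C (c j) : MvPolynomial (ι ⊕ κ) ℂ) ∈ (toPP hB).I := by
        intro x hx
        rw [map_sub, eval_X, eval_C, sub_eq_zero]
        exact (hBW hx).2 j
      rw [← PP.aeval_pt_eq_zero, map_sub, aeval_X, aeval_C, sub_eq_zero] at g3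
      exact g3
    have g3 : Sp ℂ (toPP hB).pt y := by
      rw [PP.sp_iff]
      intro f hf
      have g4 := hf p hy
      rw [hp] at g4
      exact g4
    have g4 : PP.ofPt ℂ y ≠ toPP hB := by
      intro heq
      apply hyB.ne
      have g5 : van ({p} : Set (Pts ι κ)) = van B := by
        have := congrArg PP.I heq
        rw [← hp, ← toPP_one] at this
        exact this
      rw [← (sub_one' p).closed.eq, ← hB.closed.eq, g5]
    have g5 := h3 (toPP hB) g1 g2 g3 g4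
    rw [defect_one, hp, defect_eq hB]
    exact g5

end

/-- the main theorem for ideals, from the powers of the diagonal over the algebraic numbers -/
theorem main_x'' (h : ∀ M, FinC xRT (xs (Fin M) (Fin M)) (polsZ (F := Fa) (diagL' M))) {ι : Type}
    [Fintype ι] (s : ι → xRT.S) (I : Ideal (MvPolynomial ι ℂ)) : FinI xRT ℂ s I := by
  have := algZ
  refine fin_gen' (T := xRT) false (fun h => absurd h Bool.false_ne_true) ?_ s I
  have h1 : FS xRT (fun b : Bool => (b : xRT.S)) diagC (fun i : Empty => i.elim) Cond.top := by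
    refine FS.of_power fun M => ?_
    let e : Fin M ⊕ Fin M ≃ Fin M × Bool :=
      { toFun := Sum.elim (fun i => (i, false)) (fun i => (i, true))
        invFun := fun a => if a.2 = true then Sum.inr a.1 else Sum.inl a.1
        left_inv := by rintro (i | i) <;> rfl
        right_inv := by rintro ⟨i, b⟩; cases b <;> rfl }
    have h2 := (h M).reindex e (ds M) (by
      rintro (i | i) <;> rfl)
    refine FinR.congr h2 ?_ (fun _ _ _ _ _ _ _ => trivial)
    intro K _ _ y _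
    simp only [Cond.list, Cond.comap, diagC, N101.ZP.polsZ, diagL', List.mem_map, List.mem_finRange,
      true_and, forall_exists_index, forall_apply_eq_imp_iff, map_sub, aeval_X, sub_eq_zero]
    rfl
  intro ι _ s LL
  exact h1.finC (s := s) (XG.polsZ s LL)

theorem x_exists_indep (α : Type) [Finite α] : ∃ c : α → ℂ, AlgebraicIndependent ℚ c := by
  obtain ⟨u, hu⟩ := Pool.Agent.BezHen.exists_param
  have := Fintype.ofFinite α
  exact ⟨_, hu.comp (fun a => (Fintype.equivFin α a : ℕ)) (fun a b h =>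
    (Fintype.equivFin α).injective (Fin.val_injective h))⟩

/-- the slice of the power of the diagonal -/
def diagSlice (M : ℕ) (J : Finset (Fin M)) (γ : Fin M → ℂ) : Set (Pts (Fin M) (Fin M)) :=
  {y | y ∈ diagPow M ∧ ∀ j ∈ J, y.1 j = γ j}

theorem sat_diag (M : ℕ) {K : Type} [Field K] [Algebra Fa K] (y : Fin M ⊕ Fin M → K) :
    (polsZ (F := Fa) (diagL' M)).sat y ↔ ∀ i, y (Sum.inl i) = y (Sum.inr i) := by
  simp only [N101.ZP.polsZ, diagL', List.mem_map, List.mem_finRange, true_and,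
    forall_exists_index, forall_apply_eq_imp_iff, map_sub, aeval_X, sub_eq_zero]

theorem fin_diag (M : ℕ) (H : ∀ J : Finset (Fin M), ∃ γ : Fin M → ℂ, AlgebraicIndependent ℚ γ ∧
    {x | Optimal {x} (diagSlice M J γ)}.Finite) :
    FinC xRT (xs (Fin M) (Fin M)) (polsZ (F := Fa) (diagL' M)) := by
  classical
  choose γ hγ1 hγ2 using H
  let pr : Finset (Fin M ⊕ Fin M) → Finset (Fin M) := fun J =>
    Finset.univ.filter fun i => Sum.inl i ∈ J
  let e : Fin M ⊕ Fin M → Fin M := Sum.elim id id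
  let S₀ : Finset (Fin M ⊕ Fin M) := Finset.univ.image Sum.inl
  refine fin_of_slices (k := ℂ) xRT _ _ S₀ (fun P hP => ?_)
    (fun J j => γ (pr J) (e j)) (fun J hJ => ?_) (fun J hJ => ?_)
  · have h1 := (sat_diag M P.pt).1 hP
    have h2 : ∀ i, IsAlgebraic (Algebra.adjoin Fa (P.pt '' (S₀ : Set (Fin M ⊕ Fin M))))
        (P.pt (Sum.inl i)) := by
      intro i
      exact isAlgebraic_algebraMap (A := P.fld) (⟨_, Algebra.subset_adjoin
        ⟨Sum.inl i, Finset.mem_coe.2 (Finset.mem_image_of_mem _ (Finset.mem_univ i)), rfl⟩⟩ :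
          Algebra.adjoin Fa (P.pt '' (S₀ : Set (Fin M ⊕ Fin M))))
    rintro (i | i)
    · exact h2 i
    · rw [← h1 i]
      exact h2 i
  · have : Algebra.IsAlgebraic ℚ Fa := algebraicClosure.isAlgebraic ℚ ℂ
    refine ((hγ1 (pr J)).comp (fun j : J => e j) ?_).extendScalars Fa
    intro a b hab
    obtain ⟨a', -, ha⟩ := Finset.mem_image.1 (hJ a.2)
    obtain ⟨b', -, hb⟩ := Finset.mem_image.1 (hJ b.2)
    apply Subtype.ext
    simp only [e, ← ha, ← hb, Sum.elim_inl, id] at hab ⊢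
    rw [hab]
  · refine ((hγ2 (pr J)).image co).subset fun y hy => ?_
    obtain ⟨p, hp, h1⟩ := optimal_pt_x (diagL' M) J _ y hy
    have h2 : {x : Pts (Fin M) (Fin M) | x ∈ zeros (spanZ ℂ (diagL' M) :
        Set (MvPolynomial (Fin M ⊕ Fin M) ℂ)) ∧
        ∀ j : J, co x j = γ (pr J) (e j)} = diagSlice M (pr J) (γ (pr J)) := by
      rw [← diagPow_eq]
      ext x
      refine and_congr Iff.rfl ⟨fun h j hj => ?_, fun h j => ?_⟩
      · exact h ⟨Sum.inl j, (Finset.mem_filter.1 hj).2⟩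
      · obtain ⟨a, ha⟩ := j
        obtain ⟨a', -, rfl⟩ := Finset.mem_image.1 (hJ ha)
        exact h a' (Finset.mem_filter.2 ⟨Finset.mem_univ _, ha⟩)
    rw [h2] at h1
    exact ⟨p, h1, hp⟩

/-- from the slices to all closed sets -/
theorem x_all_of_slices (H : ∀ (M : ℕ) (J : Finset (Fin M)), ∃ γ : Fin M → ℂ,
      AlgebraicIndependent ℚ γ ∧ {x | Optimal {x} (diagSlice M J γ)}.Finite)
    {ι κ : Type} [Fintype ι] [Fintype κ] (V : Set (Pts ι κ)) (hV : ZClosed V) :
    {A | Optimal A V}.Finite :=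
  finite_optimal hV (main_x'' (fun M => fin_diag M (H M)) (xs ι κ) (van V))

/-- slices are linear varieties -/
theorem x_slice_linear (M : ℕ) (J : Finset (Fin M)) (γ : Fin M → ℂ) :
    ∃ S : Set (MvPolynomial (Fin M ⊕ Fin M) ℂ), (∀ f ∈ S, f.totalDegree ≤ 1) ∧
      diagSlice M J γ = zeros S := by
  refine ⟨(Set.range fun i : Fin M => X (Sum.inl i) - X (Sum.inr i)) ∪
    (Set.range fun j : J => X (Sum.inl (j : Fin M)) - C (γ j)), ?_, ?_⟩
  · rintro f (⟨i, rfl⟩ | ⟨j, rfl⟩)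
    · refine (totalDegree_sub _ _).trans (max_le ?_ ?_) <;> simp
    · refine (totalDegree_sub _ _).trans (max_le ?_ ?_) <;> simp
  · ext x
    constructor
    · rintro ⟨h1, h2⟩ f (⟨i, rfl⟩ | ⟨j, rfl⟩)
      · simp only [map_sub, eval_X]
        exact sub_eq_zero.2 (h1 i)
      · simp only [map_sub, eval_X, eval_C]
        exact sub_eq_zero.2 (h2 j j.2)
    · intro h
      refine ⟨fun i => ?_, fun j hj => ?_⟩
      · have h1 := h _ (Or.inl ⟨i, rfl⟩)
        simp only [map_sub, eval_X, sub_eq_zero] at h1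
        exact h1
      · have h1 := h _ (Or.inr ⟨⟨j, hj⟩, rfl⟩)
        simp only [map_sub, eval_X, eval_C, sub_eq_zero] at h1
        exact h1

/-! ### The form of Zilber and Pink -/

section

variable {ι κ : Type} [Fintype ι] [Fintype κ]

/-- The points of `X` on subvarieties of `X` of smaller defect. -/
def low (X : Set (Pts ι κ)) : Set (Pts ι κ) :=
  {p | ∃ Z, Subvariety Z ∧ Z ⊆ X ∧ p ∈ Z ∧ defect Z < defect X}

/-- the Zilber-Pink conjecture implies the finiteness of the optimal points -/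
theorem x_points_of_low (H : ∀ X : Set (Pts ι κ), Subvariety X → ¬ X ⊆ xcl (low X))
    (V : Set (Pts ι κ)) (hV : ZClosed V) : {x | Optimal {x} V}.Finite := by
  classical
  by_contra hinf
  have hdr : ∀ x : Pts ι κ, defect ({x} : Set (Pts ι κ)) = (xRT.rk (xs ι κ) (co x) : ℤ) := by
    intro x
    rw [defect_one, RT.df, td_self]
    simp
  have h1 : {x | Optimal {x} V} ⊆ ⋃ d ∈ (Finset.range (Fintype.card (ι ⊕ κ) + 1) : Set ℕ),
      {x | Optimal {x} V ∧ defect ({x} : Set (Pts ι κ)) = (d : ℤ)} := by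
    intro x hx
    exact Set.mem_biUnion (Finset.mem_coe.2 (Finset.mem_range.2 (Nat.lt_succ_of_le
      (xRT.rk_card (xs ι κ) (co x))))) ⟨hx, hdr x⟩
  obtain ⟨d, hd⟩ : ∃ d : ℕ, {x | Optimal {x} V ∧
      defect ({x} : Set (Pts ι κ)) = (d : ℤ)}.Infinite := by
    by_contra hcon
    push Not at hcon
    apply hinf
    refine Set.Finite.subset (Set.Finite.biUnion (Finset.finite_toSet _) fun d _ => ?_) h1
    exact hcon d
  obtain ⟨E, hE⟩ : ∃ E, E = {x | Optimal {x} V ∧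
      defect ({x} : Set (Pts ι κ)) = (d : ℤ)} := ⟨_, rfl⟩
  rw [← hE] at hd
  have hcl := zclosed_xcl E
  have hfin := x_finite_comp hcl
  -- a component with infinitely many points
  have h2 : E ⊆ ⋃ W ∈ {W | XComp W (xcl E)}, E ∩ W := by
    intro x hx
    obtain ⟨W, hW1, hW2⟩ := x_exists_comp (sub_one' x) hcl
      (Set.singleton_subset_iff.2 (subset_xcl E hx))
    exact Set.mem_biUnion (show W ∈ {W | XComp W (xcl E)} from hW1) ⟨hx, hW2 rfl⟩
  obtain ⟨W, hW, hW2⟩ : ∃ W, XComp W (xcl E) ∧ (E ∩ W).Infinite := by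
    by_contra hcon
    push Not at hcon
    apply hd
    refine Set.Finite.subset (Set.Finite.biUnion hfin fun W hW => ?_) h2
    exact hcon W hW
  -- it is dense
  have h3 : W ⊆ xcl (E ∩ W) := by
    have h4 : xcl E ⊆ ⋃ W' ∈ hfin.toFinset, xcl (E ∩ W') := by
      refine xcl_subset (x_closed_union hfin.toFinset fun W' => E ∩ W') ?_
      intro x hx
      obtain ⟨W', hW', hx2⟩ := Set.mem_iUnion₂.1 (h2 hx)
      exact Set.mem_iUnion₂.2 ⟨W', hfin.mem_toFinset.2 hW', subset_xcl _ hx2⟩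
    obtain ⟨W', hW', h5⟩ := x_finite_union hW.1 hfin.toFinset (fun W' => xcl (E ∩ W'))
      (fun W' => zclosed_xcl _) (hW.2.1.trans h4)
    have hW'' := hfin.mem_toFinset.1 hW'
    have h6 : W ⊆ W' := h5.trans (xcl_subset hW''.1.closed Set.inter_subset_right)
    have h7 : W' = W := hW.2.2 W' hW''.1 h6 hW''.2.1
    rw [h7] at h5
    exact h5
  have h4 : defect W ≤ d := by
    by_contra hlt
    push Not at hlt
    refine H W hW.1 (h3.trans (zeros_anti (van_anti ?_)))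
    rintro x ⟨hxE, hxW⟩
    rw [hE] at hxE
    refine ⟨{x}, sub_one' x, Set.singleton_subset_iff.2 hxW, rfl, ?_⟩
    rw [hxE.2]
    exact hlt
  obtain ⟨x, hxE, hxW⟩ := hW2.nonempty
  have hxE' := hxE
  rw [hE] at hxE'
  refine hxE'.1.2.2 W hW.1 ?_ ?_ ?_
  · refine lt_of_le_of_ne (Set.singleton_subset_iff.2 hxW) fun h => hW2 ?_
    rw [← h]
    exact (Set.finite_singleton x).inter_of_right E
  · refine hW.2.1.trans (xcl_subset hV ?_)
    intro z hz
    rw [hE] at hz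
    exact hz.1.2.1 rfl
  · rw [hxE'.2]
    exact h4

/-- finiteness of the optimal subvarieties implies the Zilber-Pink conjecture -/
theorem x_low_of_optimal (X : Set (Pts ι κ)) (hX : Subvariety X) (h : {A | Optimal A X}.Finite) :
    ¬ X ⊆ xcl (low X) := by
  classical
  intro hd
  have h1 : ({A | Optimal A X ∧ defect A < defect X}).Finite := h.subset fun A hA => hA.1
  have h2 : low X ⊆ ⋃ A ∈ h1.toFinset, xcl A := by
    rintro x ⟨Z, hZ, hZX, hxZ, hZd⟩
    obtain ⟨B, hB1, hB2, hB3⟩ := x_exists_optimal hZ hZX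
    exact Set.mem_iUnion₂.2 ⟨B, h1.mem_toFinset.2 ⟨hB1, lt_of_le_of_lt hB3 hZd⟩,
      subset_xcl _ (hB2 hxZ)⟩
  obtain ⟨A, hA, h4⟩ := x_finite_union hX h1.toFinset (fun A => xcl A)
    (fun A => zclosed_xcl _) (hd.trans (xcl_subset (x_closed_union h1.toFinset fun A => A) h2))
  have hA' := h1.mem_toFinset.1 hA
  have h5 : xcl A = A := hA'.1.1.closed.eq
  rw [h5] at h4
  have h6 : A = X := Set.Subset.antisymm hA'.1.2.1 h4
  rw [h6] at hA'
  exact lt_irrefl _ hA'.2

/-- `S` is a special subvariety of the least dimension containing `Z`. -/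
def Least (S Z : Set (Pts ι κ)) : Prop :=
  Special S ∧ Z ⊆ S ∧ ∀ S', Special S' → Z ⊆ S' → vdim S ≤ vdim S'

theorem Least.defect {S Z : Set (Pts ι κ)} (h : Least S Z) :
    N101.YG.defect Z = (vdim S : ℤ) - vdim Z := by
  have h1 : sInf {d : ℕ | ∃ Y, Special Y ∧ Z ⊆ Y ∧ vdim Y = d} = vdim S := by
    refine le_antisymm (Nat.sInf_le ⟨S, h.1, h.2.1, rfl⟩) ?_
    obtain ⟨Y, h3, h4, h5⟩ := Nat.sInf_mem (s := {d : ℕ | ∃ Y, Special Y ∧ Z ⊆ Y ∧ vdim Y = d})
        ⟨_, S, h.1, h.2.1, rfl⟩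
    rw [← h5]
    exact h.2.2 Y h3 h4
  rw [N101.YG.defect, h1]

theorem exists_least {Z : Set (Pts ι κ)} (hZ : Subvariety Z) : ∃ S, Least S Z := by
  obtain ⟨Y, h1, h2, -⟩ := exists_special hZ
  obtain ⟨S, h3, h4, h5⟩ := Nat.sInf_mem (s := {d : ℕ | ∃ Y, Special Y ∧ Z ⊆ Y ∧ vdim Y = d})
        ⟨_, Y, h1, h2, rfl⟩
  refine ⟨S, h3, h4, fun S' h6 h7 => ?_⟩
  rw [h5]
  exact Nat.sInf_le ⟨S', h6, h7, rfl⟩

theorem x_inter {A B : Set (Pts ι κ)} (hA : ZClosed A) (hB : ZClosed B) : ZClosed (A ∩ B) := by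
  obtain ⟨S, rfl⟩ := hA
  obtain ⟨T, rfl⟩ := hB
  refine ⟨S ∪ T, ?_⟩
  ext x
  constructor
  · rintro ⟨h1, h2⟩ f (hf | hf)
    · exact h1 f hf
    · exact h2 f hf
  · intro h
    exact ⟨fun f hf => h f (Or.inl hf), fun f hf => h f (Or.inr hf)⟩

/-- the atypical locus in terms of special subvarieties -/
theorem low_eq (X : Set (Pts ι κ)) (hX : Subvariety X) : low X =
    {p | ∃ Z S : Set (Pts ι κ), Least S Z ∧ XComp Z (X ∩ S) ∧ defect Z < defect X ∧ p ∈ Z} := by
  ext p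
  constructor
  · rintro ⟨Z, hZ, hZX, hpZ, hZd⟩
    obtain ⟨S, hS⟩ := exists_least hZ
    obtain ⟨hS', -⟩ := hS.1.spec
    obtain ⟨W, hW1, hW2⟩ := x_exists_comp hZ (x_inter hX.closed hS'.closed)
      (Set.subset_inter hZX hS.2.1)
    have hL : Least S W := ⟨hS.1, fun x hx => (hW1.2.1 hx).2, fun S' h1 h2 =>
      hS.2.2 S' h1 (hW2.trans h2)⟩
    refine ⟨W, S, hL, hW1, lt_of_le_of_lt ?_ hZd, hW2 hpZ⟩
    rw [hL.defect, hS.defect]
    have := x_vdim_mono hZ hW1.1 hW2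
    omega
  · rintro ⟨Z, S, -, hZ, hZd, hpZ⟩
    exact ⟨Z, hZ.1, fun x hx => (hZ.2.1 hx).1, hpZ, hZd⟩

end

end Pool.Agent.N902.OPX
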